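import Pool.Agent.H10.GS.Base

/-! Gluing the colourings of the faces. -/

set_option autoImplicit false

namespace Pool.Agent.H10.GS
open Triangulation
variable {D : Type*}

/-- A colouring of the small edges of a triangle of side `m` with given colours on the sides.
`E1 x y`, `E2 x y`, `E3 x y` are the colours of the sides of the small upward triangle with
coordinates `x, y` that are parallel to the first, second and third side. -/
def FaceOK (m : ℕ) (w0 w1 w2 : ℕ → Fin 3) : Prop :=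
  ∃ E1 E2 E3 : ℕ → ℕ → Fin 3,
    (∀ x y, x + y + 1 ≤ m → E1 x y ≠ E2 x y ∧ E2 x y ≠ E3 x y ∧ E3 x y ≠ E1 x y) ∧
    (∀ x y, x + y + 2 ≤ m → E1 x y ≠ E2 (x + 1) y ∧ E2 (x + 1) y ≠ E3 x (y + 1) ∧
      E3 x (y + 1) ≠ E1 x y) ∧
    (∀ x y, x + y + 1 = m → E1 x y = w0 y) ∧
    (∀ x y, x + y + 1 = m → E2 0 x = w1 y) ∧
    (∀ y, y + 1 ≤ m → E3 y 0 = w2 y)

theorem assemble (G : Triangulation D) (m : ℕ) (M : D → Prop)
    (hM : ∀ d, (M d ∧ ¬ M (G.nxt d) ∧ ¬ M (G.nxt (G.nxt d))) ∨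
        (¬ M d ∧ M (G.nxt d) ∧ ¬ M (G.nxt (G.nxt d))) ∨
        (¬ M d ∧ ¬ M (G.nxt d) ∧ M (G.nxt (G.nxt d))))
    (W : D → ℕ → Fin 3)
    (hW : ∀ d x y, x + y + 1 = m → W (G.rev d) x = W d y)
    (hF : ∀ e, M e → FaceOK m (W e) (W (G.nxt e)) (W (G.nxt (G.nxt e)))) :
    (G.subdivide m).DualColourable := by
  classical
  have h1 : ∀ e, ∃ E1 E2 E3 : ℕ → ℕ → Fin 3, M e →
    (∀ x y, x + y + 1 ≤ m → E1 x y ≠ E2 x y ∧ E2 x y ≠ E3 x y ∧ E3 x y ≠ E1 x y) ∧
    (∀ x y, x + y + 2 ≤ m → E1 x y ≠ E2 (x + 1) y ∧ E2 (x + 1) y ≠ E3 x (y + 1) ∧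
      E3 x (y + 1) ≠ E1 x y) ∧
    (∀ x y, x + y + 1 = m → E1 x y = W e y) ∧
    (∀ x y, x + y + 1 = m → E2 0 x = W (G.nxt e) y) ∧
    (∀ y, y + 1 ≤ m → E3 y 0 = W (G.nxt (G.nxt e)) y) := by
    intro e
    by_cases he : M e
    · obtain ⟨E1, E2, E3, h⟩ := hF e he
      exact ⟨E1, E2, E3, fun _ => h⟩
    · exact ⟨fun _ _ => 0, fun _ _ => 0, fun _ _ => 0, fun h => absurd h he⟩
  choose E1 E2 E3 hE using h1
  let zz : Cell m → ℕ := fun c => if c.up = true then c.z else c.z + 1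
  let col : D × Cell m → Fin 3 := fun p =>
    if M p.1 then E1 p.1 p.2.x p.2.y
    else if M (G.nxt (G.nxt p.1)) then E2 (G.nxt (G.nxt p.1)) (zz p.2) p.2.x
    else E3 (G.nxt p.1) p.2.y (zz p.2)
  have hb : ∀ d x y (h : x + y + 0 + (if true = true then 1 else 2) = m),
      col (d, ⟨x, y, 0, true, h⟩) = W d y := by
    intro d x y h
    have h' : x + y + 1 = m := by simpa using h
    rcases hM d with ⟨h1, h2, h3⟩ | ⟨h1, h2, h3⟩ | ⟨h1, h2, h3⟩
    · simp only [col, h1, if_true]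
      exact (hE d h1).2.2.1 x y h'
    · simp only [col, h1, h3, if_false, zz, if_true]
      have := (hE (G.nxt d) h2).2.2.2.2 y (by omega)
      rw [G.nxt_three] at this
      exact this
    · simp only [col, h1, h3, if_false, if_true, zz]
      have := (hE (G.nxt (G.nxt d)) h3).2.2.2.1 x y h'
      rw [G.nxt_three] at this
      exact this
  refine ⟨col, ?_, ?_⟩
  · rintro ⟨d, x, y, z, u, h⟩
    cases u
    · rfl
    · cases z with
      | succ z => rfl
      | zero =>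
        have h' : x + y + 1 = m := by simpa using h
        rw [hb d x y h]
        have e1 : (G.subdivide m).rev (d, ⟨x, y, 0, true, h⟩) =
          (G.rev d, ⟨y, x, 0, true, by simp; omega⟩) := rfl
        rw [e1, hb]
        exact hW d x y h'
  · rintro ⟨d, x, y, z, u, h⟩
    have e1 : (G.subdivide m).nxt (d, ⟨x, y, z, u, h⟩) =
          (G.nxt d, ⟨y, z, x, u, by omega⟩) := rfl
    rw [e1]
    have h3d := G.nxt_three d
    rcases hM d with ⟨h1, h2, h3⟩ | ⟨h1, h2, h3⟩ | ⟨h1, h2, h3⟩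
    · have hh := hE d h1
      cases u
      · simp only [col, h1, h2, if_true, if_false, zz, h3d]
        simp at h
        exact (hh.2.1 x y (by omega)).1.symm
      · simp only [col, h1, h2, if_true, if_false, zz, h3d]
        simp at h
        exact (hh.1 x y (by omega)).1.symm
    · have hh := hE (G.nxt d) h2
      cases u
      · simp only [col, h1, h2, h3, if_true, if_false, zz]
        simp at h
        exact (hh.2.1 y z (by omega)).2.2.symm
      · simp only [col, h1, h2, h3, if_true, if_false, zz]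
        simp at h
        exact (hh.1 y z (by omega)).2.2.symm
    · have hh := hE (G.nxt (G.nxt d)) h3
      cases u
      · simp only [col, h1, h2, h3, if_true, if_false, zz, h3d]
        simp at h
        exact (hh.2.1 z x (by omega)).2.1.symm
      · simp only [col, h1, h2, h3, if_true, if_false, zz, h3d]
        simp at h
        exact (hh.1 z x (by omega)).2.1.symm

/-! ### heights -/

/-- three vectors with sum zero -/
def vec (a : Fin 3) : ℤ × ℤ := if a = 0 then (1, 0) else if a = 1 then (0, 1) else (-1, -1)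

lemma vec_inj {a b : Fin 3} (h : vec a = vec b) : a = b := by
  revert a b; decide

lemma vec_sum {a b c : Fin 3} (h : vec a + vec b + vec c = 0) : a ≠ b ∧ b ≠ c ∧ c ≠ a := by
  revert a b c; decide

/-- one step -/
def Stp (p q : ℤ × ℤ) : Prop := ∃ l : Fin 3, q - p = vec l

instance (p q : ℤ × ℤ) : Decidable (Stp p q) := by unfold Stp; infer_instance

/-- an oriented small triangle of heights -/
def Tri (p q r : ℤ × ℤ) : Prop := Stp p q ∧ Stp q r ∧ Stp r p

instance (p q r : ℤ × ℤ) : Decidable (Tri p q r) := by unfold Tri; infer_instance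

lemma Tri.rot {p q r : ℤ × ℤ} (h : Tri p q r) : Tri q r p := ⟨h.2.1, h.2.2, h.1⟩

lemma tri_std {a b : Fin 3} (h : a ≠ b) : Tri 0 (vec a) (-vec b) := by
  revert a b; decide

theorem faceOK_of_height (m : ℕ) (w0 w1 w2 : ℕ → Fin 3) (h : ℕ → ℕ → ℤ × ℤ)
    (ht : ∀ x y, x + y + 1 ≤ m → Tri (h x y) (h (x + 1) y) (h x (y + 1)))
    (h0 : ∀ x y, x + y + 1 = m → h x (y + 1) - h (x + 1) y = vec (w0 y))
    (h1 : ∀ x y, x + y + 1 = m → h 0 x - h 0 (x + 1) = vec (w1 y))
    (h2 : ∀ y, y + 1 ≤ m → h (y + 1) 0 - h y 0 = vec (w2 y)) : FaceOK m w0 w1 w2 := by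
  classical
  have ht' : ∀ x y, ∃ E1 E2 E3 : Fin 3, x + y + 1 ≤ m →
      h x (y + 1) - h (x + 1) y = vec E1 ∧ h x y - h x (y + 1) = vec E2 ∧
        h (x + 1) y - h x y = vec E3 := by
    intro x y
    by_cases hxy : x + y + 1 ≤ m
    · obtain ⟨⟨a, ha⟩, ⟨b, hb⟩, ⟨c, hc⟩⟩ := ht x y hxy
      exact ⟨b, c, a, fun _ => ⟨hb, hc, ha⟩⟩
    · exact ⟨0, 0, 0, fun h => absurd h hxy⟩
  choose E1 E2 E3 hE using ht'
  refine ⟨E1, E2, E3, ?_, ?_, ?_, ?_, ?_⟩
  · intro x y hxy
    obtain ⟨a, b, c⟩ := hE x y hxy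
    apply vec_sum
    rw [← a, ← b, ← c]
    abel
  · intro x y hxy
    obtain ⟨a, -, -⟩ := hE x y (by omega)
    obtain ⟨-, b, -⟩ := hE (x + 1) y (by omega)
    obtain ⟨-, -, c⟩ := hE x (y + 1) (by omega)
    apply vec_sum
    rw [← a, ← b, ← c]
    abel
  · intro x y hxy
    exact vec_inj ((hE x y hxy.le).1.symm.trans (h0 x y hxy))
  · intro x y hxy
    have := (hE 0 x (by omega)).2.1
    exact vec_inj (this.symm.trans (h1 x y hxy))
  · intro y hy
    have := (hE y 0 (by omega)).2.2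
    exact vec_inj (this.symm.trans (h2 y hy))

end Pool.Agent.H10.GS
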