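import Pool.Agent.H10.GS.Defs

set_option autoImplicit false

namespace Pool.Agent.H10.GS

variable {D : Type*}

namespace Triangulation

/-- `rot` as a permutation. -/
def rotPerm (G : Triangulation D) : Equiv.Perm D where
  toFun := G.rot
  invFun e := G.nxt (G.rev e)
  left_inv d := by simp [rot, G.rev_rev, G.nxt_three]
  right_inv e := by simp [rot, G.rev_rev, G.nxt_three]

@[simp] lemma rotPerm_apply (G : Triangulation D) (d : D) : G.rotPerm d = G.rot d := rfl

end Triangulation

open Triangulation

/-! ### list colouring of cycles -/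

/-- A colour different from two given ones. -/
def other (a b : Fin 3) : Fin 3 := if a = b then a + 1 else -(a + b)

lemma other_ne_left (a b : Fin 3) : other a b ≠ a := by revert a b; decide

lemma other_ne_right (a b : Fin 3) : other a b ≠ b := by revert a b; decide

lemma cycle_col [Finite D] (σ : Equiv.Perm D) (e : D) (forb : D → Fin 3)
    (h : forb e ≠ forb (σ e)) :
    ∃ col : D → Fin 3, ∀ x, σ.SameCycle e x → col x ≠ forb x ∧ col (σ x) ≠ col x := by
  classical
  have hex : ∀ x, σ.SameCycle e x → ∃ n : ℕ, ((σ⁻¹) ^ n) e = x := by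
    intro x hx
    obtain ⟨i, _, hi⟩ := (Equiv.Perm.sameCycle_inv.2 hx).exists_pow_eq'
    exact ⟨i, hi⟩
  let g : ℕ → Fin 3 := fun n =>
    Nat.rec (forb (σ e)) (fun i a => other (forb (((σ⁻¹) ^ (i + 1)) e)) a) n
  have g0 : g 0 = forb (σ e) := rfl
  have gs : ∀ i, g (i + 1) = other (forb (((σ⁻¹) ^ (i + 1)) e)) (g i) := fun i => rfl
  let col : D → Fin 3 := fun x =>
    if hx : ∃ n : ℕ, ((σ⁻¹) ^ n) e = x then g (Nat.find hx) else 0
  have hcol : ∀ x (hx : ∃ n : ℕ, ((σ⁻¹) ^ n) e = x), col x = g (Nat.find hx) := by
    intro x hx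
    simp only [col]
    rw [dif_pos hx]
  refine ⟨col, fun x hx => ?_⟩
  have hx' := hex x hx
  have hs' := hex (σ x) (Equiv.Perm.sameCycle_apply_right.2 hx)
  have hi := Nat.find_spec hx'
  rcases hfi : Nat.find hx' with _ | i
  · have hxe : e = x := by rw [hfi] at hi; simpa using hi
    have hj := Nat.find_spec hs'
    rcases hfj : Nat.find hs' with _ | j
    · exfalso
      rw [hfj] at hj
      have : e = σ x := by simpa using hj
      rw [← hxe] at this
      exact h (by rw [← this])
    · rw [hcol x hx', hcol (σ x) hs', hfi, hfj, g0, gs]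
      rw [hfj] at hj
      rw [hj, ← hxe]
      exact ⟨fun h' => h h'.symm, other_ne_left _ _⟩
  · have hsx : ((σ⁻¹) ^ i) e = σ x := by
      rw [hfi] at hi
      rw [← hi, pow_succ']
      simp
    have hfs : Nat.find hs' = i := by
      rw [Nat.find_eq_iff]
      refine ⟨hsx, fun n hn hn' => ?_⟩
      have : ((σ⁻¹) ^ (n + 1)) e = x := by
        rw [pow_succ', Equiv.Perm.mul_apply, hn']; simp
      exact Nat.find_min hx' (m := n + 1) (by omega) this
    rw [hcol x hx', hcol (σ x) hs', hfi, hfs, gs]
    rw [hfi] at hi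
    rw [hi]
    exact ⟨other_ne_left _ _, (other_ne_right _ _).symm⟩

/-! ### colouring the darts -/

/-- `c` is a proper colouring of the darts in `S`. -/
def Good (G : Triangulation D) (S : Set D) (c : D → Fin 3) : Prop :=
  (∀ x ∈ S, c (G.rot x) ≠ c x) ∧ ∀ x ∈ S, G.rev x ∈ S → c (G.rev x) ≠ c x

/-- `S` is a union of vertices. -/
def Closed (G : Triangulation D) (S : Set D) : Prop :=
  ∀ x y, G.rotPerm.SameCycle x y → x ∈ S → y ∈ S

lemma not_sameCycle [Finite D] (G : Triangulation D) (hG : G.Loopless) (d : D) :
    ¬ G.rotPerm.SameCycle d (G.rev d) := by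
  intro h
  obtain ⟨i, _, hi⟩ := h.exists_pow_eq'
  apply hG d i
  rw [← hi, ← Equiv.Perm.iterate_eq_pow]
  rfl

lemma rot_ne [Finite D] (G : Triangulation D) (hG : G.Loopless) (d : D) : G.rot d ≠ d := by
  intro h
  have h1 : G.nxt (G.nxt d) = G.rev d := by
    rw [← h]; simp [rot, G.rev_rev]
    rw [show G.rev (G.nxt (G.nxt d)) = d from h]
  apply hG (G.nxt d) 2
  have h2 : G.rot (G.nxt d) = G.rev d := by simp [rot, G.nxt_three]
  have h3 : G.rot (G.rev d) = G.rev (G.nxt d) := by
    rw [← h1]; simp [rot, G.nxt_three]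
  show G.rot (G.rot (G.nxt d)) = _
  rw [h2, h3]

lemma extend [Finite D] (G : Triangulation D) (hG : G.Loopless) (S : Set D) (hS : Closed G S)
    (d0 : D) (hd0 : d0 ∉ S) (c : D → Fin 3) (hc : Good G S c) (forb : D → Fin 3) (x0 : D)
    (hx0 : G.rotPerm.SameCycle d0 x0) (hne : forb x0 ≠ forb (G.rot x0))
    (hforb : ∀ y, G.rotPerm.SameCycle d0 y → G.rev y ∈ S → forb y = c (G.rev y)) :
    ∃ c' : D → Fin 3, Good G (S ∪ {x | G.rotPerm.SameCycle d0 x}) c' ∧
      (∀ x, ¬ G.rotPerm.SameCycle d0 x → c' x = c x) ∧
      ∀ x, G.rotPerm.SameCycle d0 x → c' x ≠ forb x := by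
  classical
  obtain ⟨col, hcol⟩ := cycle_col G.rotPerm x0 forb hne
  have hcol' : ∀ x, G.rotPerm.SameCycle d0 x → col x ≠ forb x ∧ col (G.rot x) ≠ col x :=
    fun x hx => hcol x (hx0.symm.trans hx)
  have hdisj : ∀ x, x ∈ S → ¬ G.rotPerm.SameCycle d0 x := fun x hx h =>
    hd0 (hS x d0 h.symm hx)
  have hrot : ∀ x, G.rotPerm.SameCycle d0 (G.rot x) ↔ G.rotPerm.SameCycle d0 x := fun x =>
    Equiv.Perm.sameCycle_apply_right (f := G.rotPerm) (x := d0) (y := x)
  refine ⟨fun x => if G.rotPerm.SameCycle d0 x then col x else c x, ⟨?_, ?_⟩, ?_, ?_⟩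
  · intro x hx
    by_cases hxc : G.rotPerm.SameCycle d0 x
    · simp only [hrot, hxc, if_true]
      exact (hcol' x hxc).2
    · simp only [hrot, hxc, if_false]
      rcases hx with hx | hx
      · exact hc.1 x hx
      · exact absurd hx hxc
  · intro x hx hrx
    by_cases hxc : G.rotPerm.SameCycle d0 x
    · have hr : ¬ G.rotPerm.SameCycle d0 (G.rev x) := fun h =>
        not_sameCycle G hG x (hxc.symm.trans h)
      simp only [hr, hxc, if_true, if_false]
      rcases hrx with hrx | hrx
      · rw [← hforb x hxc hrx]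
        exact (hcol' x hxc).1.symm
      · exact absurd hrx hr
    · have hxS : x ∈ S := by
        rcases hx with hx | hx
        · exact hx
        · exact absurd hx hxc
      by_cases hr : G.rotPerm.SameCycle d0 (G.rev x)
      · simp only [hr, hxc, if_true, if_false]
        have h1 := hforb (G.rev x) hr (by rw [G.rev_rev]; exact hxS)
        rw [G.rev_rev] at h1
        rw [← h1]
        exact (hcol' _ hr).1
      · simp only [hr, hxc, if_false]
        rcases hrx with hrx | hrx
        · exact hc.2 x hxS hrx
        · exact absurd hrx hr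
  · intro x hx
    simp [hx]
  · intro x hx
    simp only [hx, if_true]
    exact (hcol' x hx).1

lemma Good.mono {G : Triangulation D} {S T : Set D} {c : D → Fin 3} (h : Good G S c)
    (hT : T ⊆ S) : Good G T c :=
  ⟨fun x hx => h.1 x (hT hx), fun x hx hr => h.2 x (hT hx) (hT hr)⟩

lemma step [Finite D] (G : Triangulation D) (hG : G.Loopless) (S : Set D) (hS : Closed G S)
    (d0 : D) (hd0 : d0 ∉ S) (c : D → Fin 3) (hc : Good G S c) :
    ∃ c' : D → Fin 3, Good G (S ∪ {x | G.rotPerm.SameCycle d0 x}) c' := by
  classical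
  by_cases h1 : ∃ x, G.rotPerm.SameCycle d0 x ∧ G.rev x ∉ S
  · obtain ⟨x, hx, hrx⟩ := h1
    obtain ⟨c', hc', -⟩ := extend G hG S hS d0 hd0 c hc
      (fun y => if y = x then c (G.rev (G.rot x)) + 1 else c (G.rev y)) x hx
      (by
        simp only [if_true, rot_ne G hG x, if_false]
        intro h
        exact absurd h (by generalize c (G.rev (G.rot x)) = a; revert a; decide))
      (by
        intro y _ hry
        have : y ≠ x := by rintro rfl; exact hrx hry
        simp [this])
    exact ⟨c', hc'⟩
  push Not at h1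
  by_cases h2 : c (G.rev d0) ≠ c (G.rev (G.rot d0))
  · obtain ⟨c', hc', -⟩ := extend G hG S hS d0 hd0 c hc (fun y => c (G.rev y)) d0
      (Equiv.Perm.SameCycle.refl _ _) h2 (fun y _ _ => rfl)
    exact ⟨c', hc'⟩
  push Not at h2
  -- now recolour the vertex at the end of `d0`
  set e := G.rev d0 with he
  set g := G.nxt d0 with hg
  have hrg : G.rot g = e := by simp [rot, hg, he, G.nxt_three]
  set k := G.rev (G.rot d0) with hk
  have hkn : k = G.nxt (G.nxt d0) := by simp [hk, rot, G.rev_rev]
  have hrk : G.rot k = G.rev g := by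
    rw [hkn]; simp [rot, hg, G.nxt_three]
  have heS : e ∈ S := h1 d0 (Equiv.Perm.SameCycle.refl _ _)
  have hkS : k ∈ S := h1 (G.rot d0)
    (Equiv.Perm.sameCycle_apply_right.2 (Equiv.Perm.SameCycle.refl _ _))
  have hge : G.rotPerm.SameCycle e g := by
    have : G.rotPerm.SameCycle g (G.rotPerm g) :=
      Equiv.Perm.sameCycle_apply_right.2 (Equiv.Perm.SameCycle.refl _ _)
    rw [rotPerm_apply, hrg] at this
    exact this.symm
  have hkg : G.rotPerm.SameCycle k (G.rev g) := by
    have : G.rotPerm.SameCycle k (G.rotPerm k) :=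
      Equiv.Perm.sameCycle_apply_right.2 (Equiv.Perm.SameCycle.refl _ _)
    rw [rotPerm_apply, hrk] at this
    exact this
  have hke : ¬ G.rotPerm.SameCycle e k := fun h =>
    not_sameCycle G hG g (hge.symm.trans (h.trans hkg))
  have hgc : c (G.rev g) ≠ c k := by rw [← hrk]; exact hc.1 k hkS
  have hgne : g ≠ e := by
    intro h
    apply rot_ne G hG e
    rw [← h, hrg, h]
  have hre : G.rev e = d0 := by rw [he, G.rev_rev]
  set T : Set D := S \ {x | G.rotPerm.SameCycle e x} with hT
  have hTcl : Closed G T := by
    intro x y hxy hx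
    refine ⟨hS x y hxy hx.1, fun h => hx.2 ?_⟩
    exact Equiv.Perm.SameCycle.trans h hxy.symm
  have heT : e ∉ T := fun h => h.2 (Equiv.Perm.SameCycle.refl _ _)
  obtain ⟨c2, hc2, hc2o, hc2i⟩ := extend G hG T hTcl e heT c (hc.mono Set.sdiff_subset)
    (fun y => if y = e then c k else c (G.rev y)) g hge
    (by
      simp only [hgne, hrg, if_true, if_false]
      exact hgc)
    (by
      intro y hy hry
      have : y ≠ e := by
        rintro rfl
        rw [hre] at hry
        exact hd0 hry.1
      simp [this])
  have hTS : T ∪ {x | G.rotPerm.SameCycle e x} = S := by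
    ext x
    constructor
    · rintro (hx | hx)
      · exact hx.1
      · exact hS e x hx heS
    · intro hx
      by_cases h : G.rotPerm.SameCycle e x
      · exact Or.inr h
      · exact Or.inl ⟨hx, h⟩
  rw [hTS] at hc2
  have hek : c2 e ≠ c2 k := by
    have h3 := hc2i e (Equiv.Perm.SameCycle.refl _ _)
    simp only [if_true] at h3
    rw [hc2o k hke]
    exact h3
  obtain ⟨c', hc', -⟩ := extend G hG S hS d0 hd0 c2 hc2 (fun y => c2 (G.rev y)) d0
    (Equiv.Perm.SameCycle.refl _ _) hek (fun y _ _ => rfl)
  exact ⟨c', hc'⟩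

theorem exists_dart_colouring [Finite D] (G : Triangulation D) (hG : G.Loopless) :
    ∃ c : D → Fin 3, ∀ d, c (G.rev d) ≠ c d ∧ c (G.rot d) ≠ c d := by
  classical
  have key : ∀ n : ℕ, ∀ S : Set D, Closed G S → S.ncard = n → ∃ c, Good G S c := by
    intro n
    induction n using Nat.strong_induction_on with
    | _ n ih =>
      intro S hS hn
      rcases S.eq_empty_or_nonempty with rfl | ⟨d0, hd0⟩
      · exact ⟨fun _ => 0, fun x hx => absurd hx (Set.notMem_empty x), fun x hx =>
          absurd hx (Set.notMem_empty x)⟩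
      set T : Set D := S \ {x | G.rotPerm.SameCycle d0 x} with hT
      have hTcl : Closed G T := by
        intro x y hxy hx
        refine ⟨hS x y hxy hx.1, fun h => hx.2 ?_⟩
        exact Equiv.Perm.SameCycle.trans h hxy.symm
      have hd0T : d0 ∉ T := fun h => h.2 (Equiv.Perm.SameCycle.refl _ _)
      have hlt : T.ncard < n := by
        rw [← hn]
        exact Set.ncard_lt_ncard ⟨Set.sdiff_subset, fun h => hd0T (h hd0)⟩ (Set.toFinite _)
      obtain ⟨c, hc⟩ := ih _ hlt T hTcl rfl
      obtain ⟨c', hc'⟩ := step G hG T hTcl d0 hd0T c hc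
      refine ⟨c', hc'.mono ?_⟩
      intro x hx
      by_cases h : G.rotPerm.SameCycle d0 x
      · exact Or.inr h
      · exact Or.inl ⟨hx, h⟩
  obtain ⟨c, hc⟩ := key _ Set.univ (fun _ _ _ _ => trivial) rfl
  exact ⟨c, fun d => ⟨hc.2 d trivial trivial, hc.1 d trivial⟩⟩

/-! ### colouring the subdivision -/

/-- The colours of the small edges parallel to `d`. -/
def edgeCol (G : Triangulation D) (c : D → Fin 3) (d : D) (y z : ℕ) : Fin 3 :=
  if z = 0 then (if y = 0 then c d else if y = 1 then -(c d + c (G.rev d)) else c (G.rev d))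
  else if z = 1 then (if y = 0 then c (G.rev (G.nxt (G.nxt d))) else c (G.nxt d))
  else -(c (G.nxt (G.nxt d)) + c (G.rev (G.nxt d)))

lemma third_ne_left {a b : Fin 3} (h : a ≠ b) : -(a + b) ≠ a := by revert a b; decide
lemma third_ne_right {a b : Fin 3} (h : a ≠ b) : -(a + b) ≠ b := by revert a b; decide

theorem dualColourable_three (G : Triangulation D) (c : D → Fin 3)
    (hc : ∀ d, c (G.rev d) ≠ c d ∧ c (G.rot d) ≠ c d) : (G.subdivide 3).DualColourable := by
  have hrev : ∀ d, c d ≠ c (G.rev d) := fun d => (hc d).1.symm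
  have hrot : ∀ d, c (G.rev d) ≠ c (G.nxt d) := by
    intro d
    have := (hc (G.nxt d)).2
    simpa [rot, G.nxt_three] using this
  refine ⟨fun p => edgeCol G c p.1 p.2.y (if p.2.up = true then p.2.z else p.2.z + 1), ?_, ?_⟩
  · rintro ⟨d, x, y, z, u, h⟩
    cases u
    · rfl
    · cases z with
      | succ z => rfl
      | zero =>
        simp only [if_true] at h
        have hx : x ≤ 2 := by omega
        obtain rfl : y = 2 - x := by omega
        interval_cases x <;> simp [subdivide, subRev, edgeCol, G.rev_rev, add_comm]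
  · rintro ⟨d, x, y, z, u, h⟩
    have h0 := hrev d
    have h1 := hrev (G.nxt d)
    have h2 := hrev (G.nxt (G.nxt d))
    have k0 := hrot d
    have k1 := hrot (G.nxt d)
    have k2 := hrot (G.nxt (G.nxt d))
    rw [G.nxt_three] at k2
    cases u
    · simp at h
      have hx : x ≤ 1 := by omega
      have hy : y ≤ 1 := by omega
      obtain rfl : z = 1 - x - y := by omega
      interval_cases x <;> interval_cases y <;>
        simp [subdivide, edgeCol, G.nxt_three] at h ⊢
      all_goals
        clear hrev hrot hc h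
        generalize c d = a at *
        generalize c (G.rev d) = b at *
        generalize c (G.nxt d) = a1 at *
        generalize c (G.rev (G.nxt d)) = b1 at *
        generalize c (G.nxt (G.nxt d)) = a2 at *
        generalize c (G.rev (G.nxt (G.nxt d))) = b2 at *
        clear c
        revert a b a1 b1 a2 b2
        decide
    · simp at h
      have hx : x ≤ 2 := by omega
      have hy : y ≤ 2 := by omega
      obtain rfl : z = 2 - x - y := by omega
      interval_cases x <;> interval_cases y <;>
        simp [subdivide, edgeCol, G.nxt_three] at h ⊢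
      all_goals
        clear hrev hrot hc h
        generalize c d = a at *
        generalize c (G.rev d) = b at *
        generalize c (G.nxt d) = a1 at *
        generalize c (G.rev (G.nxt d)) = b1 at *
        generalize c (G.nxt (G.nxt d)) = a2 at *
        generalize c (G.rev (G.nxt (G.nxt d))) = b2 at *
        clear c
        revert a b a1 b1 a2 b2
        decide

/-! ### the subdivision of a loopless triangulation is loopless -/


/-- origin of a small dart, in the frame of its big dart -/
def raw {m : ℕ} (p : D × Cell m) : D × ℕ × ℕ × ℕ :=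
  if p.2.up = true then (p.1, p.2.x + 1, p.2.y, p.2.z) else (p.1, p.2.x, p.2.y + 1, p.2.z + 1)

/-- the possible moves of the origin -/
def Step (G : Triangulation D) (a b : D × ℕ × ℕ × ℕ) : Prop :=
  b = (G.nxt (G.nxt a.1), a.2.2.2, a.2.1, a.2.2.1) ∨
    (a.2.2.1 = 0 ∧ b = (G.rot a.1, a.2.1, a.2.2.2, 0))

lemma step_rot (G : Triangulation D) (m : ℕ) (p : D × Cell m) :
    Step G (raw p) (raw ((G.subdivide m).rot p)) := by
  obtain ⟨d, x, y, z, u, h⟩ := p
  cases u
  · left
    simp [raw, Triangulation.rot, subdivide, subRev]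
  · cases y with
    | zero =>
      right
      simp [raw, Triangulation.rot, subdivide, subRev]
    | succ y =>
      left
      simp [raw, Triangulation.rot, subdivide, subRev]

lemma inv_iterate (G : Triangulation D) (m : ℕ) (P : D × ℕ × ℕ × ℕ → Prop)
    (hP : ∀ a b, Step G a b → P a → P b) (p : D × Cell m) (hp : P (raw p)) (n : ℕ) :
    P (raw ((G.subdivide m).rot^[n] p)) := by
  induction n with
  | zero => exact hp
  | succ n ih =>
    rw [Function.iterate_succ_apply']
    exact hP _ _ (step_rot G m _) ih

/-- the origins that agree with a point inside a face -/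
def FaceSet (G : Triangulation D) (d : D) (a b c : ℕ) (q : D × ℕ × ℕ × ℕ) : Prop :=
  q = (d, a, b, c) ∨ q = (G.nxt (G.nxt d), c, a, b) ∨ q = (G.nxt d, b, c, a)

lemma faceSet_step (G : Triangulation D) (d : D) (a b c : ℕ) (ha : a ≠ 0) (hb : b ≠ 0)
    (hc : c ≠ 0) (q r : D × ℕ × ℕ × ℕ) (h : Step G q r) (hq : FaceSet G d a b c q) :
    FaceSet G d a b c r := by
  rcases hq with rfl | rfl | rfl <;> rcases h with rfl | ⟨h, rfl⟩
  · right; left; rfl
  · exact absurd h hb
  · right; right; simp [G.nxt_three]
  · exact absurd h ha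
  · left; simp [G.nxt_three]
  · exact absurd h hc

/-- the origins that agree with a point inside an edge -/
def EdgeSet (G : Triangulation D) (e : D) (a b : ℕ) (q : D × ℕ × ℕ × ℕ) : Prop :=
  (q = (e, a, b, 0) ∨ q = (G.nxt (G.nxt e), 0, a, b) ∨ q = (G.nxt e, b, 0, a)) ∨
  (q = (G.rev e, b, a, 0) ∨ q = (G.nxt (G.nxt (G.rev e)), 0, b, a) ∨
    q = (G.nxt (G.rev e), a, 0, b))

lemma edgeSet_step (G : Triangulation D) (e : D) (a b : ℕ) (ha : a ≠ 0) (hb : b ≠ 0)
    (q r : D × ℕ × ℕ × ℕ) (h : Step G q r) (hq : EdgeSet G e a b q) :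
    EdgeSet G e a b r := by
  rcases hq with (rfl | rfl | rfl) | (rfl | rfl | rfl) <;> rcases h with rfl | ⟨h, rfl⟩
  · left; right; left; rfl
  · exact absurd h hb
  · left; right; right; simp [G.nxt_three]
  · exact absurd h ha
  · left; left; simp [G.nxt_three]
  · right; left; simp [G.nxt_three, Triangulation.rot]
  · right; right; left; rfl
  · exact absurd h ha
  · right; right; right; simp [G.nxt_three]
  · exact absurd h hb
  · right; left; simp [G.nxt_three]
  · left; left; simp [G.nxt_three, Triangulation.rot, G.rev_rev]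

/-- exactly one weight is not zero -/
def VertexSet (q : D × ℕ × ℕ × ℕ) : Prop :=
  (q.2.1 = 0 ∧ q.2.2.1 = 0) ∨ (q.2.1 = 0 ∧ q.2.2.2 = 0) ∨ (q.2.2.1 = 0 ∧ q.2.2.2 = 0)

lemma vertexSet_step (G : Triangulation D) (q r : D × ℕ × ℕ × ℕ) (h : Step G q r)
    (hq : VertexSet q) : VertexSet r := by
  obtain ⟨d, a, b, c⟩ := q
  rcases h with rfl | ⟨h, rfl⟩
  · simp only [VertexSet] at hq ⊢
    omega
  · simp only [VertexSet] at hq ⊢
    dsimp only at h
    subst h
    rcases hq with hq | hq | hq
    · exact Or.inr (Or.inl ⟨hq.1, trivial⟩)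
    · exact Or.inr (Or.inl ⟨hq.1, trivial⟩)
    · exact Or.inr (Or.inr ⟨hq.2, trivial⟩)

lemma nxt_nxt_ne (G : Triangulation D) (d : D) : G.nxt (G.nxt d) ≠ d := by
  intro h
  apply G.nxt_ne d
  calc G.nxt d = G.nxt (G.nxt (G.nxt d)) := by rw [h]
    _ = d := G.nxt_three d

lemma no_fold [Finite D] (G : Triangulation D) (hG : G.Loopless) (d : D) :
    G.rev (G.nxt d) ≠ G.nxt (G.nxt d) := by
  intro h
  apply rot_ne G hG (G.nxt (G.nxt d))
  simp [Triangulation.rot, G.nxt_three, h]

lemma subdivide_loopless [Finite D] (G : Triangulation D) (hG : G.Loopless) (m : ℕ)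
    (hm : 2 ≤ m) : (G.subdivide m).Loopless := by
  rintro ⟨d, x, y, z, u, h⟩ n hn
  have h3 := G.nxt_three d
  have hne := G.nxt_ne d
  have hne2 := nxt_nxt_ne G d
  have hr := G.rev_ne d
  have hf := no_fold G hG d
  have hf' : G.rev (G.nxt (G.nxt d)) ≠ G.nxt d := by
    intro h'
    apply hf
    have h4 := congrArg G.rev h'
    rw [G.rev_rev] at h4
    exact h4.symm
  cases u
  · -- half-turned small triangle
    simp at h
    rcases Nat.eq_zero_or_pos x with rfl | hx
    · have := inv_iterate G m (EdgeSet G (G.nxt d) (y + 1) (z + 1))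
        (fun a b => edgeSet_step G _ _ _ (by omega) (by omega) a b) (d, ⟨0, y, z, false, by simp; omega⟩)
        (by left; right; left; simp [raw, h3]) n
      rw [hn] at this
      simp only [subdivide, subRev, raw, if_true] at this
      rcases this with (this | this | this) | (this | this | this) <;>
        simp only [Prod.mk.injEq] at this
      · omega
      · omega
      · exact hne2 this.1.symm
      · omega
      · omega
      · obtain ⟨h1, h2, -⟩ := this
        apply hf
        have h5 := congrArg (fun t => G.nxt (G.nxt t)) h1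
        simp only [G.nxt_three] at h5
        exact h5.symm
    · have := inv_iterate G m (FaceSet G d x (y + 1) (z + 1))
        (fun a b => faceSet_step G _ _ _ _ (by omega) (by omega) (by omega) a b)
        (d, ⟨x, y, z, false, by simp; omega⟩) (by left; simp [raw]) n
      rw [hn] at this
      simp only [subdivide, subRev, raw, if_true] at this
      rcases this with this | this | this <;> simp only [Prod.mk.injEq] at this
      · omega
      · exact hne2 this.1.symm
      · exact hne this.1.symm
  · simp at h
    cases z with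
    | zero =>
      rcases Nat.eq_zero_or_pos y with rfl | hy
      · have := inv_iterate G m VertexSet (fun a b => vertexSet_step G a b)
          (d, ⟨x, 0, 0, true, by simp; omega⟩) (by right; right; simp [raw]) n
        rw [hn] at this
        simp only [subdivide, subRev, raw, if_true, VertexSet] at this
        omega
      · have := inv_iterate G m (EdgeSet G d (x + 1) y)
          (fun a b => edgeSet_step G _ _ _ (by omega) (by omega) a b)
          (d, ⟨x, y, 0, true, by simp; omega⟩) (by left; left; simp [raw]) n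
        rw [hn] at this
        simp only [subdivide, subRev, raw, if_true] at this
        rcases this with (this | this | this) | (this | this | this) <;>
          simp only [Prod.mk.injEq] at this
        · exact hr this.1
        · omega
        · omega
        · omega
        · omega
        · omega
    | succ z =>
      rcases Nat.eq_zero_or_pos y with rfl | hy
      · have := inv_iterate G m (EdgeSet G (G.nxt (G.nxt d)) (z + 1) (x + 1))
          (fun a b => edgeSet_step G _ _ _ (by omega) (by omega) a b)
          (d, ⟨x, 0, z + 1, true, by simp; omega⟩) (by left; right; right; simp [raw, h3]) n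
        rw [hn] at this
        simp only [subdivide, subRev, raw] at this
        rcases this with (this | this | this) | (this | this | this) <;>
          simp [Prod.mk.injEq] at this
        · rw [h3] at this
          exact hne this.1.symm
        · obtain ⟨h1, h2, -⟩ := this
          apply hf'
          have h5 := congrArg G.nxt h1
          simp only [G.nxt_three] at h5
          exact h5.symm
      · have := inv_iterate G m (FaceSet G d (x + 1) y (z + 1))
          (fun a b => faceSet_step G _ _ _ _ (by omega) (by omega) (by omega) a b)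
          (d, ⟨x, y, z + 1, true, by simp; omega⟩) (by left; simp [raw]) n
        rw [hn] at this
        simp only [subdivide, subRev, raw] at this
        rcases this with this | this | this <;> simp [Prod.mk.injEq] at this
        · exact hne2 this.1.symm
        · exact hne this.1.symm

/-! ### the threefold subdivision of the `k`-fold subdivision -/


lemma sub_ext {m : ℕ} {p q : D × Cell m} (h1 : p.1 = q.1) (hx : p.2.x = q.2.x)
    (hy : p.2.y = q.2.y) (hz : p.2.z = q.2.z) (hu : p.2.up = q.2.up) : p = q :=
  Prod.ext h1 (Cell.ext hx hy hz hu)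

section comp
variable (G : Triangulation D) {m : ℕ} (p : D × Cell m)

lemma rev_1 : (((G.subdivide m).rev p).1 : D) =
    if p.2.up = true ∧ p.2.z = 0 then G.rev p.1 else p.1 := by
  obtain ⟨d, x, y, z, u, h⟩ := p
  cases u
  · simp [subdivide, subRev]
  · cases z <;> simp [subdivide, subRev]

lemma rev_x : ((G.subdivide m).rev p).2.x =
    if p.2.up = true ∧ p.2.z = 0 then p.2.y else p.2.x := by
  obtain ⟨d, x, y, z, u, h⟩ := p
  cases u
  · simp [subdivide, subRev]
  · cases z <;> simp [subdivide, subRev]

lemma rev_y : ((G.subdivide m).rev p).2.y =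
    if p.2.up = true ∧ p.2.z = 0 then p.2.x else p.2.y := by
  obtain ⟨d, x, y, z, u, h⟩ := p
  cases u
  · simp [subdivide, subRev]
  · cases z <;> simp [subdivide, subRev]

lemma rev_z : ((G.subdivide m).rev p).2.z =
    if p.2.up = true then p.2.z - 1 else p.2.z + 1 := by
  obtain ⟨d, x, y, z, u, h⟩ := p
  cases u
  · simp [subdivide, subRev]
  · cases z <;> simp [subdivide, subRev]

lemma rev_up : ((G.subdivide m).rev p).2.up =
    if p.2.up = true ∧ p.2.z = 0 then true else !p.2.up := by
  obtain ⟨d, x, y, z, u, h⟩ := p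
  cases u
  · simp [subdivide, subRev]
  · cases z <;> simp [subdivide, subRev]

end comp

/-- sum of the remainders -/
def rs (x y z : ℕ) (u : Bool) : ℕ := x % 3 + y % 3 + z % 3 + (if u = true then 1 else 2)

lemma rs_cases {k x y z : ℕ} {u : Bool} (h : x + y + z + (if u = true then 1 else 2) = 3 * k) :
    (rs x y z u = 3 ∧ x / 3 + y / 3 + z / 3 + 1 = k) ∨
      (rs x y z u = 6 ∧ x / 3 + y / 3 + z / 3 + 2 = k) := by
  unfold rs
  cases u <;> simp at h ⊢ <;> omega

lemma rs_rot (x y z : ℕ) (u : Bool) : rs y z x u = rs x y z u := by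
  unfold rs
  omega

/-- the big cell -/
def block {k : ℕ} (c : Cell (3 * k)) : Cell k where
  x := c.x / 3
  y := c.y / 3
  z := c.z / 3
  up := if rs c.x c.y c.z c.up = 3 then true else false
  sum_eq := by
    rcases rs_cases c.sum_eq with ⟨h1, h2⟩ | ⟨h1, h2⟩
    · simp [h1, h2]
    · simp [h1, h2]

/-- the place in the big cell -/
def inner {k : ℕ} (c : Cell (3 * k)) : Cell 3 where
  x := if rs c.x c.y c.z c.up = 3 then c.x % 3 else 2 - c.x % 3
  y := if rs c.x c.y c.z c.up = 3 then c.y % 3 else 2 - c.y % 3
  z := if rs c.x c.y c.z c.up = 3 then c.z % 3 else 2 - c.z % 3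
  up := if rs c.x c.y c.z c.up = 3 then c.up else !c.up
  sum_eq := by
    obtain ⟨x, y, z, u, h⟩ := c
    rcases rs_cases h with ⟨h1, h2⟩ | ⟨h1, h2⟩
    · simp only [h1, if_true]
      exact h1
    · simp only [h1, show ((6 : ℕ) = 3) = False by simp, if_false]
      unfold rs at h1
      cases u <;> simp at h1 ⊢ <;> omega

/-- the composition map -/
def phi {k : ℕ} (p : D × Cell (3 * k)) : (D × Cell k) × Cell 3 := ((p.1, block p.2), inner p.2)

lemma phi_nxt (G : Triangulation D) (k : ℕ) (p : D × Cell (3 * k)) :
    phi ((G.subdivide (3 * k)).nxt p) = ((G.subdivide k).subdivide 3).nxt (phi p) := by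
  obtain ⟨d, x, y, z, u, h⟩ := p
  apply sub_ext
  · apply sub_ext
    · rfl
    · rfl
    · rfl
    · rfl
    · show (if rs y z x u = 3 then true else false) = (if rs x y z u = 3 then true else false)
      rw [rs_rot]
  · show (if rs y z x u = 3 then y % 3 else 2 - y % 3) = (if rs x y z u = 3 then y % 3 else 2 - y % 3)
    rw [rs_rot]
  · show (if rs y z x u = 3 then z % 3 else 2 - z % 3) = (if rs x y z u = 3 then z % 3 else 2 - z % 3)
    rw [rs_rot]
  · show (if rs y z x u = 3 then x % 3 else 2 - x % 3) = (if rs x y z u = 3 then x % 3 else 2 - x % 3)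
    rw [rs_rot]
  · show (if rs y z x u = 3 then u else !u) = (if rs x y z u = 3 then u else !u)
    rw [rs_rot]

lemma phi_rev_down (G : Triangulation D) (k : ℕ) (d : D) (x y z : ℕ)
    (h : x + y + z + (if false = true then 1 else 2) = 3 * k) :
    phi ((G.subdivide (3 * k)).rev (d, ⟨x, y, z, false, h⟩)) =
      ((G.subdivide k).subdivide 3).rev (phi (d, ⟨x, y, z, false, h⟩)) := by
  have hc := rs_cases h
  have hrev : (G.subdivide (3 * k)).rev (d, ⟨x, y, z, false, h⟩) =
    (d, ⟨x, y, z + 1, true, by simp at h ⊢; omega⟩) := rfl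
  rw [hrev]
  have e1 : rs x y z false = x % 3 + y % 3 + z % 3 + 2 := rfl
  have e2 : rs x y (z + 1) true = x % 3 + y % 3 + (z + 1) % 3 + 1 := rfl
  by_cases hz : z % 3 = 2
  · -- crossing a block boundary
    have h1 : rs x y z false = 6 := by omega
    have h2 : rs x y (z + 1) true = 3 := by omega
    have h3 : (z + 1) % 3 = 0 := by omega
    have h4 : (z + 1) / 3 = z / 3 + 1 := by omega
    have h5 : x % 3 + y % 3 = 2 := by omega
    apply sub_ext
    · rw [rev_1]
      apply sub_ext <;>
        simp [phi, block, inner, h1, h2, h3, h4, hz, rev_1, rev_x, rev_y, rev_z, rev_up]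
    · rw [rev_x]
      simp [phi, block, inner, h1, h2, h3, h4, hz]
      omega
    · rw [rev_y]
      simp [phi, block, inner, h1, h2, h3, h4, hz]
      omega
    · rw [rev_z]
      simp [phi, block, inner, h1, h2, h3, h4, hz]
    · rw [rev_up]
      simp [phi, block, inner, h1, h2, h3, h4, hz]
  · have h3 : (z + 1) % 3 = z % 3 + 1 := by omega
    have h4 : (z + 1) / 3 = z / 3 := by omega
    rcases hc with ⟨h1, -⟩ | ⟨h1, -⟩
    · have h2 : rs x y (z + 1) true = 3 := by omega
      apply sub_ext
      · rw [rev_1]
        apply sub_ext <;> simp [phi, block, inner, h1, h2, h3, h4]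
      · rw [rev_x]
        simp [phi, block, inner, h1, h2, h3, h4]
      · rw [rev_y]
        simp [phi, block, inner, h1, h2, h3, h4]
      · rw [rev_z]
        simp [phi, block, inner, h1, h2, h3, h4]
      · rw [rev_up]
        simp [phi, block, inner, h1, h2, h3, h4]
    · have h2 : rs x y (z + 1) true = 6 := by omega
      have h5 : ¬ (2 - z % 3 = 0) := by omega
      apply sub_ext
      · rw [rev_1]
        apply sub_ext <;> simp [phi, block, inner, h1, h2, h3, h4, h5]
      · rw [rev_x]
        simp [phi, block, inner, h1, h2, h3, h4, h5]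
      · rw [rev_y]
        simp [phi, block, inner, h1, h2, h3, h4, h5]
      · rw [rev_z]
        simp [phi, block, inner, h1, h2, h3, h4, h5]
        omega
      · rw [rev_up]
        simp [phi, block, inner, h1, h2, h3, h4, h5]

lemma phi_rev (G : Triangulation D) (k : ℕ) (p : D × Cell (3 * k)) :
    phi ((G.subdivide (3 * k)).rev p) = ((G.subdivide k).subdivide 3).rev (phi p) := by
  obtain ⟨d, x, y, z, u, h⟩ := p
  cases u
  · exact phi_rev_down G k d x y z h
  · cases z with
    | succ z =>
      -- use the involution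
      have h' : x + y + z + (if false = true then 1 else 2) = 3 * k := by simp at h ⊢; omega
      have e := phi_rev_down G k d x y z h'
      have e1 : (G.subdivide (3 * k)).rev (d, ⟨x, y, z, false, h'⟩) =
        (d, ⟨x, y, z + 1, true, h⟩) := rfl
      have e2 : (G.subdivide (3 * k)).rev (d, ⟨x, y, z + 1, true, h⟩) =
        (d, ⟨x, y, z, false, h'⟩) := rfl
      rw [e1] at e
      rw [e2, e, Triangulation.rev_rev]
    | zero =>
      have hc := rs_cases h
      have hrev : (G.subdivide (3 * k)).rev (d, ⟨x, y, 0, true, h⟩) =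
        (G.rev d, ⟨y, x, 0, true, by simp at h ⊢; omega⟩) := rfl
      rw [hrev]
      have e1 : rs x y 0 true = x % 3 + y % 3 + 0 % 3 + 1 := rfl
      have e2 : rs y x 0 true = y % 3 + x % 3 + 0 % 3 + 1 := rfl
      have h1 : rs x y 0 true = 3 := by omega
      have h2 : rs y x 0 true = 3 := by omega
      apply sub_ext
      · rw [rev_1]
        apply sub_ext <;>
          simp [phi, block, inner, h1, h2, rev_1, rev_x, rev_y, rev_z, rev_up]
      · rw [rev_x]
        simp [phi, block, inner, h1, h2]
      · rw [rev_y]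
        simp [phi, block, inner, h1, h2]
      · rw [rev_z]
        simp [phi, block, inner, h1, h2]
      · rw [rev_up]
        simp [phi, block, inner, h1, h2]

theorem dualColourable_mul (G : Triangulation D) (k : ℕ)
    (h : ((G.subdivide k).subdivide 3).DualColourable) :
    (G.subdivide (3 * k)).DualColourable := by
  obtain ⟨col, h1, h2⟩ := h
  refine ⟨fun p => col (phi p), fun p => ?_, fun p => ?_⟩
  · simp only [phi_rev, h1]
  · simp only [phi_nxt]
    exact h2 _

instance [Finite D] (m : ℕ) : Finite (D × Cell m) := by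
  have : Finite (Cell m) := by
    refine Finite.of_injective
      (fun c : Cell m => ((⟨c.x, by have := c.sum_eq; omega⟩ : Fin (m + 1)),
        (⟨c.y, by have := c.sum_eq; omega⟩ : Fin (m + 1)),
        (⟨c.z, by have := c.sum_eq; omega⟩ : Fin (m + 1)), c.up)) ?_
    intro a b hab
    simp only [Prod.mk.injEq, Fin.mk.injEq] at hab
    exact Cell.ext hab.1 hab.2.1 hab.2.2.1 hab.2.2.2
  infer_instance

/-- For every loopless triangulation of a closed oriented surface and every `m` divisible by 3, the
dual of its `m`-fold subdivision is 3-edge-colourable. -/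
theorem subdivision_by_three :
    ∀ (D : Type) [Finite D] (G : Triangulation D), G.Loopless →
      ∀ m : ℕ, 0 < m → 3 ∣ m → (G.subdivide m).DualColourable := by
  rintro D _ G hG m hm ⟨k, rfl⟩
  rcases Nat.lt_or_ge 1 k with hk | hk
  · obtain ⟨c, hc⟩ := exists_dart_colouring (G.subdivide k) (subdivide_loopless G hG k hk)
    exact dualColourable_mul G k (dualColourable_three _ c hc)
  · obtain rfl : k = 1 := by omega
    obtain ⟨c, hc⟩ := exists_dart_colouring G hG
    exact dualColourable_three G c hc

end Pool.Agent.H10.GS
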