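import Mathlib

set_option autoImplicit false

namespace Pool.Agent.H10.GS

/-- A triangulation of a closed oriented surface (connected or not), given by its darts, that is,
its directed edges: `rev d` is `d` in the other direction, and `nxt d` is the dart that follows `d`
on the boundary of the face to the left of `d`; every face has three darts. -/
structure Triangulation (D : Type*) where
  rev : D → D
  nxt : D → D
  rev_rev : ∀ d, rev (rev d) = d
  rev_ne : ∀ d, rev d ≠ d
  nxt_three : ∀ d, nxt (nxt (nxt d)) = d
  nxt_ne : ∀ d, nxt d ≠ d

/-- The small triangles into which a triangle of side `m` is cut by the lines parallel to its sides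
that divide each side into `m` equal parts: `x`, `y`, `z` count the full strips between the small
triangle and the sides opposite to the first, second and third corner, and `up` says whether the
small triangle is a translate of a scaled copy of the big one (`x + y + z + 1 = m`) or is rotated by
half a turn (`x + y + z + 2 = m`). -/
@[ext]
structure Cell (m : ℕ) where
  x : ℕ
  y : ℕ
  z : ℕ
  up : Bool
  sum_eq : x + y + z + (if up = true then 1 else 2) = m

variable {D : Type*}

namespace Triangulation

/-- The next dart with the same origin as `d`. -/
def rot (G : Triangulation D) (d : D) : D := G.rev (G.nxt (G.nxt d))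

/-- No edge is a loop: `rev d` never has the same origin as `d`. -/
def Loopless (G : Triangulation D) : Prop := ∀ (d : D) (n : ℕ), G.rot^[n] d ≠ G.rev d

/-- The dual cubic graph is 3-edge-colourable. -/
def DualColourable (G : Triangulation D) : Prop :=
  ∃ col : D → Fin 3, (∀ d, col (G.rev d) = col d) ∧ ∀ d, col (G.nxt d) ≠ col d

/-- `rev` for the `m`-fold subdivision, see `subdivide`: the small triangle on the other side of the
small edge lies in the same face, except if the small edge lies on `d` (`z = 0` and `up`). -/
def subRev (G : Triangulation D) (m : ℕ) : D × Cell m → D × Cell m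
  | (d, ⟨x, y, z, false, h⟩) => (d, ⟨x, y, z + 1, true, by simp at h ⊢; omega⟩)
  | (d, ⟨x, y, z + 1, true, h⟩) => (d, ⟨x, y, z, false, by simp at h ⊢; omega⟩)
  | (d, ⟨x, y, 0, true, h⟩) => (G.rev d, ⟨y, x, 0, true, by simp at h ⊢; omega⟩)

/-- The `m`-fold subdivision: every face is cut into `m ^ 2` small triangles.  The dart `(d, c)`
stands for the side parallel to `d` of the small triangle `c` of the face to the left of `d` (first
corner: origin of `d`, second corner: end of `d`), directed so that `c` is on its left. -/
def subdivide (G : Triangulation D) (m : ℕ) : Triangulation (D × Cell m) where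
  rev := G.subRev m
  nxt p := (G.nxt p.1, ⟨p.2.y, p.2.z, p.2.x, p.2.up, by have := p.2.sum_eq; omega⟩)
  rev_rev := by
    rintro ⟨d, x, y, z, u, h⟩
    cases u
    · rfl
    · cases z with
      | zero => simp [subRev, G.rev_rev]
      | succ z => rfl
  rev_ne := by
    rintro ⟨d, x, y, z, u, h⟩ he
    cases u
    · simp [subRev] at he
    · cases z with
      | zero => simp [subRev, G.rev_ne] at he
      | succ z => simp [subRev] at he
  nxt_three := by
    rintro ⟨d, x, y, z, u, h⟩
    simp [G.nxt_three]
  nxt_ne := by
    rintro ⟨d, x, y, z, u, h⟩ he
    exact G.nxt_ne d (congrArg Prod.fst he)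

end Triangulation

end Pool.Agent.H10.GS
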