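import Pool.Agent.H10.GS.Assemble

/-! Side words and heights of a face for `m % 3 = 1`. -/

set_option autoImplicit false

namespace Pool.Agent.H10.GS

def B0 (o : Bool) : Fin 3 := if o = true then 1 else 2
def B1 (o : Bool) : Fin 3 := if o = true then 2 else 1

lemma B0_ne (o : Bool) : B0 o ≠ 0 := by revert o; decide
lemma B1_ne (o : Bool) : B1 o ≠ 0 := by revert o; decide

/-- side word of an edge outside the matching -/
def WN1 (m : ℕ) (o : Bool) (a b : Fin 3) (y : ℕ) : Fin 3 :=
  if y = 0 then a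
  else if y = 1 then (if a = 0 then B0 o else 0)
  else if y = 2 then (if a = 0 then B1 o else -a)
  else if y + 1 = m then b
  else if y + 2 = m then (if b = 0 then B1 o else 0)
  else if y + 3 = m then (if b = 0 then B0 o else -b)
  else if y % 3 = 0 then 0 else if y % 3 = 1 then B0 o else B1 o

/-- side word of an edge of the matching -/
def WM1 (m : ℕ) (o : Bool) (a b : Fin 3) (y : ℕ) : Fin 3 :=
  if y = 0 then a
  else if y = 1 then -a
  else if y + 1 = m then b
  else if y + 2 = m then -b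
  else if (if o = true then 2 * y < m + 3 * (m % 2) else 2 * y + 3 * (m % 2) < m) then
    (if y % 3 = 0 then B0 o else if y % 3 = 1 then B1 o else 0)
  else (if y % 3 = 0 then B1 o else if y % 3 = 1 then 0 else B0 o)

/-- the data of a face -/
structure Dat where
  m : ℕ
  o0 : Bool
  o1 : Bool
  o2 : Bool
  a0 : Fin 3
  b0 : Fin 3
  a1 : Fin 3
  b1 : Fin 3
  a2 : Fin 3
  b2 : Fin 3

namespace One
variable (q : Dat)

def P2 : Fin 3 := if q.a2 = 0 then B1 q.o2 else -q.a2
def Q2 : Fin 3 := if q.b1 = 0 then B0 q.o1 else -q.b1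

lemma P2_ne : P2 q ≠ 0 := by
  unfold P2 B1
  generalize q.o2 = o
  generalize q.a2 = a
  revert o a; decide

lemma P2_ne' : P2 q ≠ q.a2 := by
  unfold P2 B1
  generalize q.o2 = o
  generalize q.a2 = a
  revert o a; decide

lemma Q2_ne : Q2 q ≠ 0 := by
  unfold Q2 B0
  generalize q.o1 = o
  generalize q.b1 = a
  revert o a; decide

lemma Q2_ne' : Q2 q ≠ q.b1 := by
  unfold Q2 B0
  generalize q.o1 = o
  generalize q.b1 = a
  revert o a; decide

def f1 (x y : ℕ) : Fin 3 :=
  if y + 4 ≤ x then 0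
  else if x = y + 1 then
    (if y = 0 then q.a2 else if y = 1 then (if q.o0 = true then -P2 q else 0)
      else (if q.o0 = true then 0 else 2))
  else if y = x + 2 then
    (if x = 0 then Q2 q else if q.o0 = true then 1 else if x = 1 then Q2 q else 2)
  else if x = 0 then (if y + 2 = q.m ∧ q.a1 ≠ 0 then q.a1 else B0 q.o1)
  else if x + y = q.m then (if x = 1 then -q.b0 else B0 q.o0)
  else 1

def f2 (x y : ℕ) : Fin 3 :=
  if x + 4 ≤ y then 0
  else if y = x + 1 then
    (if x = 0 then q.b1 else if x = 1 then (if q.o0 = true then 0 else -Q2 q)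
      else (if q.o0 = true then 2 else 0))
  else if x = y + 2 then
    (if y = 0 then P2 q else if q.o0 = true then (if y = 1 then P2 q else 2) else 1)
  else if y = 0 then (if x + 2 = q.m ∧ q.b2 ≠ 0 then q.b2 else B1 q.o2)
  else if x + y = q.m then (if y = 1 then -q.a0 else B1 q.o0)
  else 1

def hh (x y : ℕ) : ℤ × ℤ :=
  if (x + 2 * y) % 3 = 0 then
    (if x + 1 = q.m ∧ y = 0 then vec 0 - vec q.b2
      else if x = 0 ∧ y + 1 = q.m then vec q.a1 - vec 0 else 0)
  else if (x + 2 * y) % 3 = 1 then vec (f1 q x y) else -vec (f2 q x y)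

lemma hh0 (x y : ℕ) (h : (x + 2 * y) % 3 = 0) (h1 : ¬ (x + 1 = q.m ∧ y = 0))
    (h2 : ¬ (x = 0 ∧ y + 1 = q.m)) : hh q x y = 0 := by
  simp [hh, h, h1, h2]

lemma hh1 (x y : ℕ) (h : (x + 2 * y) % 3 = 1) : hh q x y = vec (f1 q x y) := by
  simp [hh, h]

lemma hh2 (x y : ℕ) (h : (x + 2 * y) % 3 = 2) : hh q x y = -vec (f2 q x y) := by
  simp [hh, h]

lemma f1_zero (x y : ℕ) (h : y + 4 ≤ x) : f1 q x y = 0 := by simp [f1, h]

lemma f2_zero (x y : ℕ) (h : x + 4 ≤ y) : f2 q x y = 0 := by simp [f2, h]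

lemma neg_ne {a : Fin 3} (h : a ≠ 0) : -a ≠ 0 := by revert a; decide

lemma f1_ne (hb0 : q.b0 ≠ 0) (x y : ℕ) (h : x + 2 ≤ y) : f1 q x y ≠ 0 := by
  have h1 := Q2_ne q
  have h2 := B0_ne q.o1
  have h3 := B0_ne q.o0
  have h4 := neg_ne hb0
  unfold f1
  rw [if_neg (by omega), if_neg (by omega)]
  split_ifs <;> first | assumption | decide | (rename_i h; exact h.2)

lemma f2_ne (ha0 : q.a0 ≠ 0) (x y : ℕ) (h : y + 2 ≤ x) : f2 q x y ≠ 0 := by
  have h1 := P2_ne q
  have h2 := B1_ne q.o2
  have h3 := B1_ne q.o0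
  have h4 := neg_ne ha0
  unfold f2
  rw [if_neg (by omega), if_neg (by omega)]
  split_ifs <;> first | assumption | decide | (rename_i h; exact h.2)

lemma T_eq (j : ℕ) : f1 q (j + 1) j =
    if j = 0 then q.a2 else if j = 1 then (if q.o0 = true then -P2 q else 0)
      else (if q.o0 = true then 0 else 2) := by
  unfold f1
  rw [if_neg (by omega), if_pos rfl]

lemma R_eq (j : ℕ) : f1 q j (j + 2) =
    if j = 0 then Q2 q else if q.o0 = true then 1 else if j = 1 then Q2 q else 2 := by
  unfold f1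
  rw [if_neg (by omega), if_neg (by omega), if_pos rfl]

lemma P_eq (j : ℕ) : f2 q j (j + 1) =
    if j = 0 then q.b1 else if j = 1 then (if q.o0 = true then 0 else -Q2 q)
      else (if q.o0 = true then 2 else 0) := by
  unfold f2
  rw [if_neg (by omega), if_pos rfl]

lemma Z_eq (j : ℕ) : f2 q (j + 2) j =
    if j = 0 then P2 q else if q.o0 = true then (if j = 1 then P2 q else 2) else 1 := by
  unfold f2
  rw [if_neg (by omega), if_neg (by omega), if_pos rfl]

lemma neg_self_ne {a : Fin 3} (h : a ≠ 0) : -a ≠ a := by revert a; decide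

lemma TP (h : q.b1 ≠ q.a2) (j : ℕ) : f1 q (j + 1) j ≠ f2 q j (j + 1) := by
  have h1 := neg_ne (P2_ne q)
  have h2 := neg_ne (Q2_ne q)
  rw [T_eq, P_eq]
  rcases j with _ | _ | j
  · simpa using h.symm
  · cases q.o0
    · simpa using h2.symm
    · simpa using h1
  · cases q.o0 <;> simp

lemma TZ (j : ℕ) : f1 q (j + 1) j ≠ f2 q (j + 2) j := by
  have h1 := P2_ne q
  have h2 := P2_ne' q
  have h3 := neg_self_ne h1
  rw [T_eq, Z_eq]
  rcases j with _ | _ | j
  · simpa using h2.symm
  · cases q.o0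
    · simp
    · simpa using h3
  · cases q.o0 <;> simp

lemma TZ' (j : ℕ) : f1 q (j + 2) (j + 1) ≠ f2 q (j + 2) j := by
  have h1 := P2_ne q
  have h3 := neg_self_ne h1
  have e := T_eq q (j + 1)
  rw [show j + 1 + 1 = j + 2 from rfl] at e
  rw [e, Z_eq]
  rcases j with _ | _ | j
  · cases q.o0
    · simpa using h1.symm
    · simpa using h3
  · cases q.o0
    · simp
    · simpa using h1.symm
  · cases q.o0 <;> simp

lemma RP (j : ℕ) : f1 q j (j + 2) ≠ f2 q j (j + 1) := by
  have h1 := Q2_ne q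
  have h2 := Q2_ne' q
  have h3 := neg_self_ne h1
  rw [R_eq, P_eq]
  rcases j with _ | _ | j
  · simpa using h2
  · cases q.o0
    · simpa using h3.symm
    · simp
  · cases q.o0 <;> simp

lemma RP' (j : ℕ) : f1 q j (j + 2) ≠ f2 q (j + 1) (j + 2) := by
  have h1 := Q2_ne q
  have h3 := neg_self_ne h1
  have e := P_eq q (j + 1)
  rw [show j + 1 + 1 = j + 2 from rfl] at e
  rw [e, R_eq]
  rcases j with _ | _ | j
  · cases q.o0
    · simpa using h3.symm
    · simpa using h1
  · cases q.o0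
    · simpa using h1
    · simp
  · cases q.o0 <;> simp

/-- adjacent points of classes 1 and 2, first kind -/
lemma adj0 (hb0 : q.b0 ≠ 0) (ha0 : q.a0 ≠ 0) (h21 : q.b1 ≠ q.a2) (x y : ℕ)
    (hr : (x + 2 * y) % 3 = 0) : f1 q (x + 1) y ≠ f2 q x (y + 1) := by
  rcases lt_trichotomy x y with h | rfl | h
  · rw [f2_zero q x (y + 1) (by omega)]
    exact f1_ne q hb0 _ _ (by omega)
  · exact TP q h21 x
  · rw [f1_zero q (x + 1) y (by omega)]
    exact (f2_ne q ha0 _ _ (by omega)).symm

lemma adj1 (hb0 : q.b0 ≠ 0) (ha0 : q.a0 ≠ 0) (x y : ℕ)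
    (hr : (x + 2 * y) % 3 = 1) : f1 q x y ≠ f2 q (x + 1) y := by
  by_cases h1 : y + 4 ≤ x
  · rw [f1_zero q x y h1]
    exact (f2_ne q ha0 _ _ (by omega)).symm
  by_cases h2 : x = y + 1
  · subst h2
    exact TZ q y
  by_cases h3 : y = x + 2
  · subst h3
    exact RP' q x
  · rw [f2_zero q (x + 1) y (by omega)]
    exact f1_ne q hb0 _ _ (by omega)

lemma adj2 (hb0 : q.b0 ≠ 0) (ha0 : q.a0 ≠ 0) (x y : ℕ)
    (hr : (x + 2 * y) % 3 = 2) : f1 q x (y + 1) ≠ f2 q x y := by
  by_cases h1 : y + 5 ≤ x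
  · rw [f1_zero q x (y + 1) (by omega)]
    exact (f2_ne q ha0 _ _ (by omega)).symm
  by_cases h2 : x = y + 2
  · subst h2
    exact TZ' q y
  by_cases h3 : y = x + 1
  · subst h3
    exact RP q x
  · rw [f2_zero q x y (by omega)]
    exact f1_ne q hb0 _ _ (by omega)

lemma sp1 : ∀ a b : Fin 3, a ≠ 0 → b ≠ a → Tri (vec 0 - vec b) (vec 0) (-vec (-a)) := by
  decide

lemma sp2 : ∀ a b : Fin 3, a ≠ 0 → a ≠ b → Tri (vec b - vec 0) (vec (-a)) (-vec 0) := by
  decide

lemma sp3 : ∀ a b : Fin 3, b ≠ 0 → Tri (vec (if a ≠ 0 then a else b)) (-vec 0) (vec a - vec 0) := by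
  decide

lemma sp4 : ∀ a b : Fin 3, b ≠ 0 →
    Tri (-vec (if a ≠ 0 then a else b)) (vec 0 - vec a) (vec 0) := by
  decide

theorem tri (hm : q.m % 3 = 1) (hm7 : 7 ≤ q.m) (hb0 : q.b0 ≠ 0) (ha0 : q.a0 ≠ 0)
    (h21 : q.b1 ≠ q.a2) (h10 : q.b0 ≠ q.a1) (h02 : q.b2 ≠ q.a0) (x y : ℕ)
    (hxy : x + y + 1 ≤ q.m) : Tri (hh q x y) (hh q (x + 1) y) (hh q x (y + 1)) := by
  have hc : (x + 2 * y) % 3 = 0 ∨ (x + 2 * y) % 3 = 1 ∨ (x + 2 * y) % 3 = 2 := by omega
  rcases hc with hr | hr | hr
  · rw [hh1 q (x + 1) y (by omega), hh2 q x (y + 1) (by omega)]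
    by_cases hA : x + 1 = q.m ∧ y = 0
    · obtain ⟨hA1, rfl⟩ := hA
      rw [f1_zero q (x + 1) 0 (by omega)]
      have e1 : hh q x 0 = vec 0 - vec q.b2 := by
        unfold hh
        rw [if_pos hr, if_pos ⟨hA1, rfl⟩]
      have e2 : f2 q x (0 + 1) = -q.a0 := by
        unfold f2
        rw [if_neg (by omega), if_neg (by omega), if_neg (by omega), if_neg (by omega),
          if_pos (by omega), if_pos rfl]
      rw [e1, e2]
      exact sp1 _ _ ha0 h02
    by_cases hB : x = 0 ∧ y + 1 = q.m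
    · obtain ⟨rfl, hB1⟩ := hB
      rw [f2_zero q 0 (y + 1) (by omega)]
      have e1 : hh q 0 y = vec q.a1 - vec 0 := by
        unfold hh
        rw [if_pos hr, if_neg (by omega), if_pos ⟨rfl, hB1⟩]
      have e2 : f1 q (0 + 1) y = -q.b0 := by
        unfold f1
        rw [if_neg (by omega), if_neg (by omega), if_neg (by omega), if_neg (by omega),
          if_pos (by omega), if_pos rfl]
      rw [e1, e2]
      exact sp2 _ _ hb0 h10
    rw [hh0 q x y hr hA hB]
    exact tri_std (adj0 q hb0 ha0 h21 x y hr)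
  · rw [hh1 q x y hr, hh2 q (x + 1) y (by omega)]
    by_cases hB : x = 0 ∧ y + 2 = q.m
    · obtain ⟨rfl, hB1⟩ := hB
      rw [f2_zero q (0 + 1) y (by omega)]
      have e1 : hh q 0 (y + 1) = vec q.a1 - vec 0 := by
        unfold hh
        rw [if_pos (by omega), if_neg (by omega), if_pos ⟨rfl, by omega⟩]
      have e2 : f1 q 0 y = if q.a1 ≠ 0 then q.a1 else B0 q.o1 := by
        unfold f1
        rw [if_neg (by omega), if_neg (by omega), if_neg (by omega), if_pos rfl]
        simp [hB1]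
      rw [e1, e2]
      exact sp3 _ _ (B0_ne _)
    rw [hh0 q x (y + 1) (by omega) (by omega) (by omega)]
    exact (tri_std (adj1 q hb0 ha0 x y hr)).rot
  · rw [hh2 q x y hr, hh1 q x (y + 1) (by omega)]
    by_cases hA : x + 2 = q.m ∧ y = 0
    · obtain ⟨hA1, rfl⟩ := hA
      rw [f1_zero q x (0 + 1) (by omega)]
      have e1 : hh q (x + 1) 0 = vec 0 - vec q.b2 := by
        unfold hh
        rw [if_pos (by omega), if_pos ⟨by omega, rfl⟩]
      have e2 : f2 q x 0 = if q.b2 ≠ 0 then q.b2 else B1 q.o2 := by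
        unfold f2
        rw [if_neg (by omega), if_neg (by omega), if_neg (by omega), if_pos rfl]
        simp [hA1]
      rw [e1, e2]
      exact sp4 _ _ (B1_ne _)
    rw [hh0 q (x + 1) y (by omega) (by omega) (by omega)]
    exact (tri_std (adj2 q hb0 ha0 x y hr)).rot.rot

lemma c1 : ∀ (a : Fin 3) (o : Bool), -vec (if a = 0 then B1 o else -a) - vec a =
    vec (if a = 0 then B0 o else 0) := by decide
lemma c2 : ∀ (b : Fin 3) (o : Bool), vec 0 - vec b - -vec (if b ≠ 0 then b else B1 o) =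
    vec (if b = 0 then B1 o else 0) := by decide
lemma c3 : ∀ (b : Fin 3) (o : Bool), -vec (if b ≠ 0 then b else B1 o) - vec 0 =
    vec (if b = 0 then B0 o else -b) := by decide
lemma c4 : ∀ (o : Bool), -vec (B1 o) - vec 0 = vec (B0 o) := by decide
lemma c5 : ∀ (a : Fin 3) (o : Bool), vec (if a ≠ 0 then a else B0 o) - (vec a - vec 0) =
    vec (if a = 0 then B0 o else 0) := by decide
lemma c6 : ∀ (a : Fin 3) (o : Bool), -vec 0 - vec (if a ≠ 0 then a else B0 o) =
    vec (if a = 0 then B1 o else -a) := by decide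
lemma c7 : ∀ (b : Fin 3) (o : Bool), -vec b - vec (if b = 0 then B0 o else -b) =
    vec (if b = 0 then B1 o else 0) := by decide
lemma c8 : ∀ (o : Bool), -vec 0 - vec (B0 o) = vec (B1 o) := by decide

theorem side2 (hm : q.m % 3 = 1) (hm7 : 7 ≤ q.m) (y : ℕ) (hy : y + 1 ≤ q.m) :
    hh q (y + 1) 0 - hh q y 0 = vec (WN1 q.m q.o2 q.a2 q.b2 y) := by
  unfold WN1
  by_cases h0 : y = 0
  · subst h0
    rw [if_pos rfl, hh0 q 0 0 (by omega) (by omega) (by omega), hh1 q (0 + 1) 0 (by omega), T_eq]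
    simp
  rw [if_neg h0]
  by_cases h1 : y = 1
  · subst h1
    rw [if_pos rfl, hh2 q (1 + 1) 0 (by omega), hh1 q 1 0 (by omega)]
    have e := T_eq q 0
    have e' := Z_eq q 0
    simp only [zero_add, if_true] at e e'
    rw [show 1 + 1 = 2 from rfl, e, e']
    exact c1 _ _
  rw [if_neg h1]
  by_cases h2 : y = 2
  · subst h2
    rw [if_pos rfl, hh2 q 2 0 (by omega), hh0 q (2 + 1) 0 (by omega) (by omega) (by omega)]
    have e' := Z_eq q 0
    simp only [zero_add, if_true] at e'
    rw [e']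
    simp [P2]
  rw [if_neg h2]
  by_cases h3 : y + 1 = q.m
  · rw [if_pos h3, hh1 q (y + 1) 0 (by omega), f1_zero q (y + 1) 0 (by omega)]
    have e1 : hh q y 0 = vec 0 - vec q.b2 := by
      unfold hh
      rw [if_pos (by omega), if_pos ⟨h3, rfl⟩]
    rw [e1]
    abel
  rw [if_neg h3]
  by_cases h4 : y + 2 = q.m
  · rw [if_pos h4, hh2 q y 0 (by omega)]
    have e1 : hh q (y + 1) 0 = vec 0 - vec q.b2 := by
      unfold hh
      rw [if_pos (by omega), if_pos ⟨by omega, rfl⟩]
    have e2 : f2 q y 0 = if q.b2 ≠ 0 then q.b2 else B1 q.o2 := by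
      unfold f2
      rw [if_neg (by omega), if_neg (by omega), if_neg (by omega), if_pos rfl]
      simp [h4]
    rw [e1, e2]
    exact c2 _ _
  rw [if_neg h4]
  by_cases h5 : y + 3 = q.m
  · rw [if_pos h5, hh1 q y 0 (by omega), hh2 q (y + 1) 0 (by omega), f1_zero q y 0 (by omega)]
    have e2 : f2 q (y + 1) 0 = if q.b2 ≠ 0 then q.b2 else B1 q.o2 := by
      unfold f2
      rw [if_neg (by omega), if_neg (by omega), if_neg (by omega), if_pos rfl]
      have : y + 1 + 2 = q.m := by omega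
      simp [this]
    rw [e2]
    exact c3 _ _
  rw [if_neg h5]
  have hc : y % 3 = 0 ∨ y % 3 = 1 ∨ y % 3 = 2 := by omega
  rcases hc with hr | hr | hr
  · rw [if_pos hr, hh1 q (y + 1) 0 (by omega), f1_zero q (y + 1) 0 (by omega),
      hh0 q y 0 (by omega) (by omega) (by omega)]
    simp
  · rw [if_neg (by omega), if_pos hr, hh1 q y 0 (by omega), f1_zero q y 0 (by omega),
      hh2 q (y + 1) 0 (by omega)]
    have e2 : f2 q (y + 1) 0 = B1 q.o2 := by
      unfold f2
      rw [if_neg (by omega), if_neg (by omega), if_neg (by omega), if_pos rfl,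
        if_neg (by omega)]
    rw [e2]
    exact c4 _
  · rw [if_neg (by omega), if_neg (by omega), hh2 q y 0 (by omega),
      hh0 q (y + 1) 0 (by omega) (by omega) (by omega)]
    have e2 : f2 q y 0 = B1 q.o2 := by
      unfold f2
      rw [if_neg (by omega), if_neg (by omega), if_neg (by omega), if_pos rfl,
        if_neg (by omega)]
    rw [e2]
    simp

theorem side1 (hm : q.m % 3 = 1) (hm7 : 7 ≤ q.m) (x y : ℕ) (hy : x + y + 1 = q.m) :
    hh q 0 x - hh q 0 (x + 1) = vec (WN1 q.m q.o1 q.a1 q.b1 y) := by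
  unfold WN1
  by_cases h0 : y = 0
  · rw [if_pos h0, hh2 q 0 (x + 1) (by omega), f2_zero q 0 (x + 1) (by omega)]
    have e1 : hh q 0 x = vec q.a1 - vec 0 := by
      unfold hh
      rw [if_pos (by omega), if_neg (by omega), if_pos ⟨rfl, by omega⟩]
    rw [e1]
    abel
  rw [if_neg h0]
  by_cases h1 : y = 1
  · rw [if_pos h1, hh1 q 0 x (by omega)]
    have e1 : hh q 0 (x + 1) = vec q.a1 - vec 0 := by
      unfold hh
      rw [if_pos (by omega), if_neg (by omega), if_pos ⟨rfl, by omega⟩]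
    have e2 : f1 q 0 x = if q.a1 ≠ 0 then q.a1 else B0 q.o1 := by
      unfold f1
      rw [if_neg (by omega), if_neg (by omega), if_neg (by omega), if_pos rfl]
      have : x + 2 = q.m := by omega
      simp [this]
    rw [e1, e2]
    exact c5 _ _
  rw [if_neg h1]
  by_cases h2 : y = 2
  · rw [if_pos h2, hh2 q 0 x (by omega), f2_zero q 0 x (by omega), hh1 q 0 (x + 1) (by omega)]
    have e2 : f1 q 0 (x + 1) = if q.a1 ≠ 0 then q.a1 else B0 q.o1 := by
      unfold f1
      rw [if_neg (by omega), if_neg (by omega), if_neg (by omega), if_pos rfl]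
      have : x + 1 + 2 = q.m := by omega
      simp [this]
    rw [e2]
    exact c6 _ _
  rw [if_neg h2]
  by_cases h3 : y + 1 = q.m
  · obtain rfl : x = 0 := by omega
    rw [if_pos h3, hh0 q 0 0 (by omega) (by omega) (by omega), hh2 q 0 (0 + 1) (by omega), P_eq]
    simp
  rw [if_neg h3]
  by_cases h4 : y + 2 = q.m
  · obtain rfl : x = 1 := by omega
    have e := P_eq q 0
    have e' := R_eq q 0
    simp only [zero_add, if_true] at e e'
    rw [if_pos h4, hh2 q 0 1 (by omega), hh1 q 0 (1 + 1) (by omega), show 1 + 1 = 2 from rfl,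
      e, e']
    exact c7 _ _
  rw [if_neg h4]
  by_cases h5 : y + 3 = q.m
  · obtain rfl : x = 2 := by omega
    have e' := R_eq q 0
    simp only [zero_add, if_true] at e'
    rw [if_pos h5, hh1 q 0 2 (by omega), hh0 q 0 (2 + 1) (by omega) (by omega) (by omega), e']
    simp [Q2]
  rw [if_neg h5]
  have hc : y % 3 = 0 ∨ y % 3 = 1 ∨ y % 3 = 2 := by omega
  rcases hc with hr | hr | hr
  · rw [if_pos hr, hh0 q 0 x (by omega) (by omega) (by omega), hh2 q 0 (x + 1) (by omega),
      f2_zero q 0 (x + 1) (by omega)]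
    simp
  · rw [if_neg (by omega), if_pos hr, hh1 q 0 x (by omega),
      hh0 q 0 (x + 1) (by omega) (by omega) (by omega)]
    have e2 : f1 q 0 x = B0 q.o1 := by
      unfold f1
      rw [if_neg (by omega), if_neg (by omega), if_neg (by omega), if_pos rfl,
        if_neg (by omega)]
    rw [e2]
    simp
  · rw [if_neg (by omega), if_neg (by omega), hh2 q 0 x (by omega), f2_zero q 0 x (by omega),
      hh1 q 0 (x + 1) (by omega)]
    have e2 : f1 q 0 (x + 1) = B0 q.o1 := by
      unfold f1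
      rw [if_neg (by omega), if_neg (by omega), if_neg (by omega), if_pos rfl,
        if_neg (by omega)]
    rw [e2]
    exact c8 _

lemma f1_AB (hm7 : 7 ≤ q.m) (x y : ℕ) (hxy : x + y = q.m) (hr : (x + 2 * y) % 3 = 1)
    (hx : 2 ≤ x) : f1 q x y =
      if (if q.o0 = true then y + 1 ≤ x else y + 4 ≤ x) then 0 else B0 q.o0 := by
  unfold f1 B0
  cases q.o0
  · by_cases h1 : y + 4 ≤ x
    · simp [h1]
    by_cases h2 : x = y + 1
    · rw [if_neg h1, if_pos h2, if_neg (by omega), if_neg (by omega)]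
      simp [h1]
    by_cases h3 : y = x + 2
    · rw [if_neg h1, if_neg h2, if_pos h3, if_neg (by omega)]
      simp [h1]
      omega
    · rw [if_neg h1, if_neg h2, if_neg h3, if_neg (by omega), if_pos hxy, if_neg (by omega)]
      simp [h1]
  · by_cases h1 : y + 4 ≤ x
    · rw [if_pos h1]
      simp
      omega
    by_cases h2 : x = y + 1
    · rw [if_neg h1, if_pos h2, if_neg (by omega), if_neg (by omega)]
      simp [h2]
    by_cases h3 : y = x + 2
    · rw [if_neg h1, if_neg h2, if_pos h3, if_neg (by omega)]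
      simp
      omega
    · rw [if_neg h1, if_neg h2, if_neg h3, if_neg (by omega), if_pos hxy, if_neg (by omega)]
      simp
      omega

lemma f2_AB (hm7 : 7 ≤ q.m) (x y : ℕ) (hxy : x + y = q.m) (hr : (x + 2 * y) % 3 = 2)
    (hy : 2 ≤ y) : f2 q x y =
      if (if q.o0 = true then x + 4 ≤ y else x + 1 ≤ y) then 0 else B1 q.o0 := by
  unfold f2 B1
  cases q.o0
  · by_cases h1 : x + 4 ≤ y
    · rw [if_pos h1]
      simp
      omega
    by_cases h2 : y = x + 1
    · rw [if_neg h1, if_pos h2, if_neg (by omega), if_neg (by omega)]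
      simp [h2]
    by_cases h3 : x = y + 2
    · rw [if_neg h1, if_neg h2, if_pos h3, if_neg (by omega)]
      simp
      omega
    · rw [if_neg h1, if_neg h2, if_neg h3, if_neg (by omega), if_pos hxy, if_neg (by omega)]
      simp
      omega
  · by_cases h1 : x + 4 ≤ y
    · simp [h1]
    by_cases h2 : y = x + 1
    · rw [if_neg h1, if_pos h2, if_neg (by omega), if_neg (by omega)]
      simp [h1]
    by_cases h3 : x = y + 2
    · rw [if_neg h1, if_neg h2, if_pos h3, if_neg (by omega)]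
      simp [h1]
      omega
    · rw [if_neg h1, if_neg h2, if_neg h3, if_neg (by omega), if_pos hxy, if_neg (by omega)]
      simp [h1]

lemma c9 : ∀ a : Fin 3, a ≠ 0 → -vec (-a) - vec 0 = vec a := by decide

theorem side0 (hm : q.m % 3 = 1) (hm7 : 7 ≤ q.m) (ha0 : q.a0 ≠ 0) (hb0 : q.b0 ≠ 0)
    (x y : ℕ) (hxy : x + y + 1 = q.m) :
    hh q x (y + 1) - hh q (x + 1) y = vec (WM1 q.m q.o0 q.a0 q.b0 y) := by
  unfold WM1
  by_cases h0 : y = 0
  · subst h0
    have e2 : f2 q x (0 + 1) = -q.a0 := by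
      unfold f2
      rw [if_neg (by omega), if_neg (by omega), if_neg (by omega), if_neg (by omega),
        if_pos (by omega), if_pos rfl]
    rw [if_pos rfl, hh1 q (x + 1) 0 (by omega), f1_zero q (x + 1) 0 (by omega),
      hh2 q x (0 + 1) (by omega), e2]
    exact c9 _ ha0
  rw [if_neg h0]
  by_cases h1 : y = 1
  · subst h1
    have e2 : f2 q (x + 1) 1 = -q.a0 := by
      unfold f2
      rw [if_neg (by omega), if_neg (by omega), if_neg (by omega), if_neg (by omega),
        if_pos (by omega), if_pos rfl]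
    rw [if_pos rfl, hh2 q (x + 1) 1 (by omega), hh0 q x (1 + 1) (by omega) (by omega) (by omega),
      e2]
    simp
  rw [if_neg h1]
  by_cases h3 : y + 1 = q.m
  · obtain rfl : x = 0 := by omega
    have e2 : f1 q (0 + 1) y = -q.b0 := by
      unfold f1
      rw [if_neg (by omega), if_neg (by omega), if_neg (by omega), if_neg (by omega),
        if_pos (by omega), if_pos rfl]
    rw [if_pos h3, hh2 q 0 (y + 1) (by omega), f2_zero q 0 (y + 1) (by omega),
      hh1 q (0 + 1) y (by omega), e2]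
    have := c9 _ hb0
    rw [← this]
    abel
  rw [if_neg h3]
  by_cases h4 : y + 2 = q.m
  · obtain rfl : x = 1 := by omega
    have e2 : f1 q 1 (y + 1) = -q.b0 := by
      unfold f1
      rw [if_neg (by omega), if_neg (by omega), if_neg (by omega), if_neg (by omega),
        if_pos (by omega), if_pos rfl]
    rw [if_pos h4, hh1 q 1 (y + 1) (by omega),
      hh0 q (1 + 1) y (by omega) (by omega) (by omega), e2]
    simp
  rw [if_neg h4]
  have hc : y % 3 = 0 ∨ y % 3 = 1 ∨ y % 3 = 2 := by omega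
  rcases hc with hr | hr | hr
  · rw [hh1 q (x + 1) y (by omega), hh2 q x (y + 1) (by omega),
      f1_AB q hm7 (x + 1) y (by omega) (by omega) (by omega),
      f2_AB q hm7 x (y + 1) (by omega) (by omega) (by omega)]
    cases ho : q.o0
    · simp only [hr, if_true, Bool.false_eq_true, if_false]
      split_ifs <;> first | contradiction | omega | decide
    · simp only [hr, if_true]
      split_ifs <;> first | contradiction | omega | decide
  · rw [hh2 q (x + 1) y (by omega), hh0 q x (y + 1) (by omega) (by omega) (by omega),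
      f2_AB q hm7 (x + 1) y (by omega) (by omega) (by omega)]
    cases ho : q.o0
    · simp only [hr, Bool.false_eq_true, if_false]
      split_ifs <;> first | contradiction | omega | decide
    · simp only [hr, if_true]
      split_ifs <;> first | contradiction | omega | decide
  · rw [hh0 q (x + 1) y (by omega) (by omega) (by omega), hh1 q x (y + 1) (by omega),
      f1_AB q hm7 x (y + 1) (by omega) (by omega) (by omega)]
    cases ho : q.o0
    · simp only [hr, Bool.false_eq_true, if_false]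
      split_ifs <;> first | contradiction | omega | decide
    · simp only [hr, if_true]
      split_ifs <;> first | contradiction | omega | decide

theorem face (hm : q.m % 3 = 1) (hm7 : 7 ≤ q.m) (hb0 : q.b0 ≠ 0) (ha0 : q.a0 ≠ 0)
    (h21 : q.b1 ≠ q.a2) (h10 : q.b0 ≠ q.a1) (h02 : q.b2 ≠ q.a0) :
    FaceOK q.m (WM1 q.m q.o0 q.a0 q.b0) (WN1 q.m q.o1 q.a1 q.b1) (WN1 q.m q.o2 q.a2 q.b2) :=
  faceOK_of_height q.m _ _ _ (hh q) (tri q hm hm7 hb0 ha0 h21 h10 h02)
    (side0 q hm hm7 ha0 hb0) (side1 q hm hm7) (side2 q hm hm7)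

end One

end Pool.Agent.H10.GS
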