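import Pool.Agent.H10.GS.FaceOne

/-! Side words and heights of a face for `m % 3 = 2`. -/

set_option autoImplicit false

namespace Pool.Agent.H10.GS

/-- side word of an edge outside the matching -/
def WN2 (m : ℕ) (o : Bool) (a b : Fin 3) (y : ℕ) : Fin 3 :=
  if y = 0 then a
  else if y = 1 then (if a = 0 then 1 else -a)
  else if y = 2 then (if a = 0 then 2 else 0)
  else if y + 1 = m then b
  else if y + 2 = m then (if b = 0 then 1 else -b)
  else if y + 3 = m then (if b = 0 then 2 else 0)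
  else if y % 3 = 0 then B0 o else if y % 3 = 1 then B1 o else 0

/-- side word of an edge of the matching -/
def WM2 (m : ℕ) (o : Bool) (a b : Fin 3) (y : ℕ) : Fin 3 :=
  if y = 0 then a
  else if y = 1 then (if a = 0 then B0 o else 0)
  else if y = 2 then (if a = 0 then B1 o else -a)
  else if y + 1 = m then b
  else if y + 2 = m then (if b = 0 then B1 o else 0)
  else if y + 3 = m then (if b = 0 then B0 o else -b)
  else if 2 * y + 1 < m then
    (if y % 3 = 0 then 0 else if y % 3 = 1 then B0 o else B1 o)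
  else if 2 * y + 1 = m then 0
  else (if y % 3 = 0 then B1 o else if y % 3 = 1 then 0 else B0 o)

namespace Two
variable (q : Dat)

def P2 : Fin 3 := if q.a2 = 0 then 2 else 0
def Q2 : Fin 3 := if q.b1 = 0 then 2 else 0

def f1 (x y : ℕ) : Fin 3 :=
  if y + 4 ≤ x then
    (if y = 0 then (if x + 1 = q.m then -q.b2 else B0 q.o2)
      else if x + y = q.m then (if y = 2 ∧ q.a0 ≠ 0 then q.a0 else B0 q.o0) else 1)
  else if x = y + 1 then
    (if y = 0 then q.a2 else if y = 1 then (if q.b1 = 0 then 2 else 1) else B0 q.o0)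
  else if x = 0 ∧ y = 2 then Q2 q
  else 0

def f2 (x y : ℕ) : Fin 3 :=
  if x + 4 ≤ y then
    (if x = 0 then (if y + 1 = q.m then -q.a1 else B1 q.o1)
      else if x + y = q.m then (if x = 2 ∧ q.b0 ≠ 0 then q.b0 else B1 q.o0) else 1)
  else if y = x + 1 then
    (if x = 0 then q.b1 else if x = 1 then (if q.b1 = 0 then 1 else 2) else B1 q.o0)
  else if x = 2 ∧ y = 0 then P2 q
  else 0

def hh (x y : ℕ) : ℤ × ℤ :=
  if (x + 2 * y) % 3 = 0 then
    (if x + 1 = q.m ∧ y = 1 then vec q.a0 - vec 0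
      else if x = 1 ∧ y + 1 = q.m then vec 0 - vec q.b0 else 0)
  else if (x + 2 * y) % 3 = 1 then vec (f1 q x y) else -vec (f2 q x y)

lemma hh0 (x y : ℕ) (h : (x + 2 * y) % 3 = 0) (h1 : ¬ (x + 1 = q.m ∧ y = 1))
    (h2 : ¬ (x = 1 ∧ y + 1 = q.m)) : hh q x y = 0 := by
  simp [hh, h, h1, h2]

lemma hh1 (x y : ℕ) (h : (x + 2 * y) % 3 = 1) : hh q x y = vec (f1 q x y) := by
  simp [hh, h]

lemma hh2 (x y : ℕ) (h : (x + 2 * y) % 3 = 2) : hh q x y = -vec (f2 q x y) := by
  simp [hh, h]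

lemma f1_zero (x y : ℕ) (h : x + 2 ≤ y) (h' : ¬ (x = 0 ∧ y = 2)) : f1 q x y = 0 := by
  unfold f1
  rw [if_neg (by omega), if_neg (by omega), if_neg h']

lemma f2_zero (x y : ℕ) (h : y + 2 ≤ x) (h' : ¬ (x = 2 ∧ y = 0)) : f2 q x y = 0 := by
  unfold f2
  rw [if_neg (by omega), if_neg (by omega), if_neg h']

lemma f1_ne (hb2 : q.b2 ≠ 0) (x y : ℕ) (h : y + 4 ≤ x) : f1 q x y ≠ 0 := by
  have h2 := B0_ne q.o2
  have h3 := B0_ne q.o0
  have h4 := One.neg_ne hb2
  unfold f1
  rw [if_pos h]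
  split_ifs <;> first | assumption | decide | (rename_i h; exact h.2)

lemma f2_ne (ha1 : q.a1 ≠ 0) (x y : ℕ) (h : x + 4 ≤ y) : f2 q x y ≠ 0 := by
  have h2 := B1_ne q.o1
  have h3 := B1_ne q.o0
  have h4 := One.neg_ne ha1
  unfold f2
  rw [if_pos h]
  split_ifs <;> first | assumption | decide | (rename_i h; exact h.2)

lemma T_eq (j : ℕ) : f1 q (j + 1) j =
    if j = 0 then q.a2 else if j = 1 then (if q.b1 = 0 then 2 else 1) else B0 q.o0 := by
  unfold f1
  rw [if_neg (by omega), if_pos rfl]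

lemma P_eq (j : ℕ) : f2 q j (j + 1) =
    if j = 0 then q.b1 else if j = 1 then (if q.b1 = 0 then 1 else 2) else B1 q.o0 := by
  unfold f2
  rw [if_neg (by omega), if_pos rfl]

lemma T_ne (j : ℕ) : f1 q (j + 2) (j + 1) ≠ 0 := by
  have e := T_eq q (j + 1)
  rw [show j + 1 + 1 = j + 2 from rfl] at e
  rw [e, if_neg (Nat.succ_ne_zero j)]
  have := B0_ne q.o0
  split_ifs <;> first | assumption | decide

lemma P_ne (j : ℕ) : f2 q (j + 1) (j + 2) ≠ 0 := by
  have e := P_eq q (j + 1)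
  rw [show j + 1 + 1 = j + 2 from rfl] at e
  rw [e, if_neg (Nat.succ_ne_zero j)]
  have := B1_ne q.o0
  split_ifs <;> first | assumption | decide

lemma B01 (o : Bool) : B0 o ≠ B1 o := by revert o; decide

lemma TP (h : q.b1 ≠ q.a2) (j : ℕ) : f1 q (j + 1) j ≠ f2 q j (j + 1) := by
  rw [T_eq, P_eq]
  rcases j with _ | _ | j
  · simpa using h.symm
  · by_cases hb : q.b1 = 0 <;> simp [hb]
  · simpa using B01 _

lemma TZ (j : ℕ) : f1 q (j + 1) j ≠ f2 q (j + 2) j := by
  rcases j with _ | j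
  · have e1 : f2 q (0 + 2) 0 = P2 q := by
      unfold f2
      rw [if_neg (by omega), if_neg (by omega), if_pos ⟨rfl, rfl⟩]
    rw [T_eq, e1]
    unfold P2
    by_cases h : q.a2 = 0 <;> simp [h]
  · rw [f2_zero q (j + 1 + 2) (j + 1) (by omega) (by omega)]
    exact T_ne q j

lemma TZ' (h : q.b1 ≠ q.a2) (j : ℕ) : f1 q (j + 2) (j + 1) ≠ f2 q (j + 2) j := by
  rcases j with _ | j
  · have e1 : f2 q (0 + 2) 0 = P2 q := by
      unfold f2
      rw [if_neg (by omega), if_neg (by omega), if_pos ⟨rfl, rfl⟩]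
    rw [e1]
    have e := T_eq q 1
    rw [show 1 + 1 = 0 + 2 from rfl] at e
    rw [show 0 + 1 = 1 from rfl, e]
    unfold P2
    by_cases h' : q.a2 = 0
    · have : q.b1 ≠ 0 := by rw [← h']; exact h
      simp [h', this]
    · by_cases hb : q.b1 = 0 <;> simp [h', hb]
  · rw [f2_zero q (j + 1 + 2) (j + 1) (by omega) (by omega)]
    exact T_ne q (j + 1)

lemma RP (j : ℕ) : f1 q j (j + 2) ≠ f2 q j (j + 1) := by
  rcases j with _ | j
  · have e1 : f1 q 0 (0 + 2) = Q2 q := by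
      unfold f1
      rw [if_neg (by omega), if_neg (by omega), if_pos ⟨rfl, rfl⟩]
    rw [e1, P_eq]
    unfold Q2
    by_cases h : q.b1 = 0
    · simp [h]
    · simpa [h] using fun h' => h h'.symm
  · rw [f1_zero q (j + 1) (j + 1 + 2) (by omega) (by omega)]
    exact (P_ne q j).symm

lemma RP' (j : ℕ) : f1 q j (j + 2) ≠ f2 q (j + 1) (j + 2) := by
  rcases j with _ | j
  · have e1 : f1 q 0 (0 + 2) = Q2 q := by
      unfold f1
      rw [if_neg (by omega), if_neg (by omega), if_pos ⟨rfl, rfl⟩]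
    have e := P_eq q 1
    rw [show 1 + 1 = 0 + 2 from rfl] at e
    rw [e1, show 0 + 1 = 1 from rfl, e]
    unfold Q2
    by_cases h : q.b1 = 0 <;> simp [h]
  · rw [f1_zero q (j + 1) (j + 1 + 2) (by omega) (by omega)]
    exact (P_ne q (j + 1)).symm

lemma adj0 (hb2 : q.b2 ≠ 0) (ha1 : q.a1 ≠ 0) (h21 : q.b1 ≠ q.a2) (x y : ℕ)
    (hr : (x + 2 * y) % 3 = 0) : f1 q (x + 1) y ≠ f2 q x (y + 1) := by
  rcases lt_trichotomy x y with h | rfl | h
  · rw [f1_zero q (x + 1) y (by omega) (by omega)]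
    exact (f2_ne q ha1 _ _ (by omega)).symm
  · exact TP q h21 x
  · rw [f2_zero q x (y + 1) (by omega) (by omega)]
    exact f1_ne q hb2 _ _ (by omega)

lemma adj1 (hb2 : q.b2 ≠ 0) (ha1 : q.a1 ≠ 0) (x y : ℕ)
    (hr : (x + 2 * y) % 3 = 1) : f1 q x y ≠ f2 q (x + 1) y := by
  by_cases h1 : y + 4 ≤ x
  · rw [f2_zero q (x + 1) y (by omega) (by omega)]
    exact f1_ne q hb2 _ _ h1
  by_cases h2 : x = y + 1
  · subst h2
    exact TZ q y
  by_cases h3 : y = x + 2
  · subst h3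
    exact RP' q x
  · rw [f1_zero q x y (by omega) (by omega)]
    exact (f2_ne q ha1 _ _ (by omega)).symm

lemma adj2 (hb2 : q.b2 ≠ 0) (ha1 : q.a1 ≠ 0) (h21 : q.b1 ≠ q.a2) (x y : ℕ)
    (hr : (x + 2 * y) % 3 = 2) : f1 q x (y + 1) ≠ f2 q x y := by
  by_cases h1 : y + 5 ≤ x
  · rw [f2_zero q x y (by omega) (by omega)]
    exact f1_ne q hb2 _ _ (by omega)
  by_cases h2 : x = y + 2
  · subst h2
    exact TZ' q h21 y
  by_cases h3 : y = x + 1
  · subst h3
    exact RP q x
  · rw [f1_zero q x (y + 1) (by omega) (by omega)]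
    exact (f2_ne q ha1 _ _ (by omega)).symm

lemma sp1 : ∀ a b : Fin 3, b ≠ 0 → b ≠ a → Tri (vec (-b)) (-vec 0) (vec a - vec 0) := by
  decide

lemma sp2 : ∀ a b : Fin 3, b ≠ 0 →
    Tri (-vec 0) (vec a - vec 0) (vec (if a ≠ 0 then a else b)) := by
  decide

lemma sp3 : ∀ a b : Fin 3, b ≠ 0 →
    Tri (vec 0) (-vec (if a ≠ 0 then a else b)) (vec 0 - vec a) := by
  decide

lemma sp4 : ∀ a b : Fin 3, a ≠ 0 → b ≠ a → Tri (-vec (-a)) (vec 0 - vec b) (vec 0) := by
  decide

theorem tri (hm : q.m % 3 = 2) (hm8 : 8 ≤ q.m) (hb2 : q.b2 ≠ 0) (ha1 : q.a1 ≠ 0)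
    (h21 : q.b1 ≠ q.a2) (h10 : q.b0 ≠ q.a1) (h02 : q.b2 ≠ q.a0) (x y : ℕ)
    (hxy : x + y + 1 ≤ q.m) : Tri (hh q x y) (hh q (x + 1) y) (hh q x (y + 1)) := by
  have hc : (x + 2 * y) % 3 = 0 ∨ (x + 2 * y) % 3 = 1 ∨ (x + 2 * y) % 3 = 2 := by omega
  rcases hc with hr | hr | hr
  · rw [hh1 q (x + 1) y (by omega), hh2 q x (y + 1) (by omega),
      hh0 q x y hr (by omega) (by omega)]
    exact tri_std (adj0 q hb2 ha1 h21 x y hr)
  · rw [hh1 q x y hr, hh2 q (x + 1) y (by omega)]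
    by_cases hA : x + 1 = q.m ∧ y = 0
    · obtain ⟨hA1, rfl⟩ := hA
      have e1 : hh q x (0 + 1) = vec q.a0 - vec 0 := by
        unfold hh
        rw [if_pos (by omega), if_pos ⟨hA1, rfl⟩]
      have e2 : f1 q x 0 = -q.b2 := by
        unfold f1
        rw [if_pos (by omega), if_pos rfl, if_pos hA1]
      rw [e1, e2, f2_zero q (x + 1) 0 (by omega) (by omega)]
      exact sp1 _ _ hb2 h02
    by_cases hB : x = 1 ∧ y + 2 = q.m
    · obtain ⟨rfl, hB1⟩ := hB
      have e1 : hh q 1 (y + 1) = vec 0 - vec q.b0 := by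
        unfold hh
        rw [if_pos (by omega), if_neg (by omega), if_pos ⟨rfl, by omega⟩]
      have e2 : f2 q (1 + 1) y = if q.b0 ≠ 0 then q.b0 else B1 q.o0 := by
        unfold f2
        rw [if_pos (by omega), if_neg (by omega), if_pos (by omega)]
        simp
      rw [e1, e2, f1_zero q 1 y (by omega) (by omega)]
      exact sp3 _ _ (B1_ne _)
    rw [hh0 q x (y + 1) (by omega) (by omega) (by omega)]
    exact (tri_std (adj1 q hb2 ha1 x y hr)).rot
  · rw [hh2 q x y hr, hh1 q x (y + 1) (by omega)]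
    by_cases hA : x + 2 = q.m ∧ y = 1
    · obtain ⟨hA1, rfl⟩ := hA
      have e1 : hh q (x + 1) 1 = vec q.a0 - vec 0 := by
        unfold hh
        rw [if_pos (by omega), if_pos ⟨by omega, rfl⟩]
      have e2 : f1 q x (1 + 1) = if q.a0 ≠ 0 then q.a0 else B0 q.o0 := by
        unfold f1
        rw [if_pos (by omega), if_neg (by omega), if_pos (by omega)]
        simp
      rw [e1, e2, f2_zero q x 1 (by omega) (by omega)]
      exact sp2 _ _ (B0_ne _)
    by_cases hB : x = 0 ∧ y + 1 = q.m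
    · obtain ⟨rfl, hB1⟩ := hB
      have e1 : hh q (0 + 1) y = vec 0 - vec q.b0 := by
        unfold hh
        rw [if_pos (by omega), if_neg (by omega), if_pos ⟨rfl, hB1⟩]
      have e2 : f2 q 0 y = -q.a1 := by
        unfold f2
        rw [if_pos (by omega), if_pos rfl, if_pos hB1]
      rw [e1, e2, f1_zero q 0 (y + 1) (by omega) (by omega)]
      exact sp4 _ _ ha1 h10
    rw [hh0 q (x + 1) y (by omega) (by omega) (by omega)]
    exact (tri_std (adj2 q hb2 ha1 h21 x y hr)).rot.rot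

lemma d1 : ∀ a : Fin 3, -vec (if a = 0 then 2 else 0) - vec a =
    vec (if a = 0 then 1 else -a) := by decide
lemma d2 : ∀ b : Fin 3, b ≠ 0 → -vec 0 - vec (-b) = vec b := by decide
lemma d3 : ∀ a : Fin 3, a ≠ 0 → -vec (-a) - vec 0 = vec a := by decide
lemma d4 : ∀ b : Fin 3, -vec b - vec (if b = 0 then 2 else 0) =
    vec (if b = 0 then 1 else -b) := by decide
lemma d5 : ∀ (o : Bool), -vec 0 - vec (B0 o) = vec (B1 o) := by decide
lemma d6 : ∀ (o : Bool), -vec (B1 o) - vec 0 = vec (B0 o) := by decide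
lemma d7 : ∀ (o : Bool), -vec (B1 o) - vec (B0 o) = vec 0 := by decide

theorem side2 (hm : q.m % 3 = 2) (hm8 : 8 ≤ q.m) (hb2 : q.b2 ≠ 0) (y : ℕ)
    (hy : y + 1 ≤ q.m) : hh q (y + 1) 0 - hh q y 0 = vec (WN2 q.m q.o2 q.a2 q.b2 y) := by
  unfold WN2
  by_cases h0 : y = 0
  · subst h0
    rw [if_pos rfl, hh0 q 0 0 (by omega) (by omega) (by omega), hh1 q (0 + 1) 0 (by omega), T_eq]
    simp
  rw [if_neg h0]
  have eP : f2 q 2 0 = P2 q := by
    unfold f2
    rw [if_neg (by omega), if_neg (by omega), if_pos ⟨rfl, rfl⟩]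
  by_cases h1 : y = 1
  · subst h1
    rw [if_pos rfl, hh2 q (1 + 1) 0 (by omega), hh1 q 1 0 (by omega)]
    have e := T_eq q 0
    simp only [zero_add, if_true] at e
    rw [show 1 + 1 = 2 from rfl, e, eP]
    exact d1 _
  rw [if_neg h1]
  by_cases h2 : y = 2
  · subst h2
    rw [if_pos rfl, hh2 q 2 0 (by omega), hh0 q (2 + 1) 0 (by omega) (by omega) (by omega), eP]
    simp [P2]
  rw [if_neg h2]
  have eU : ∀ x, x + 1 = q.m → f1 q x 0 = -q.b2 := by
    intro x hx
    unfold f1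
    rw [if_pos (by omega), if_pos rfl, if_pos hx]
  have eS : ∀ x, 4 ≤ x → x + 1 ≠ q.m → f1 q x 0 = B0 q.o2 := by
    intro x hx hx'
    unfold f1
    rw [if_pos (by omega), if_pos rfl, if_neg hx']
  by_cases h3 : y + 1 = q.m
  · rw [if_pos h3, hh2 q (y + 1) 0 (by omega), f2_zero q (y + 1) 0 (by omega) (by omega),
      hh1 q y 0 (by omega), eU y h3]
    exact d2 _ hb2
  rw [if_neg h3]
  by_cases h4 : y + 2 = q.m
  · rw [if_pos h4, hh1 q (y + 1) 0 (by omega), eU (y + 1) (by omega),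
      hh0 q y 0 (by omega) (by omega) (by omega), if_neg hb2]
    simp
  rw [if_neg h4]
  by_cases h5 : y + 3 = q.m
  · rw [if_pos h5, hh0 q (y + 1) 0 (by omega) (by omega) (by omega), hh2 q y 0 (by omega),
      f2_zero q y 0 (by omega) (by omega), if_neg hb2]
    simp
  rw [if_neg h5]
  have hc : y % 3 = 0 ∨ y % 3 = 1 ∨ y % 3 = 2 := by omega
  rcases hc with hr | hr | hr
  · rw [if_pos hr, hh1 q (y + 1) 0 (by omega), eS (y + 1) (by omega) (by omega),
      hh0 q y 0 (by omega) (by omega) (by omega)]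
    simp
  · rw [if_neg (by omega), if_pos hr, hh1 q y 0 (by omega), eS y (by omega) (by omega),
      hh2 q (y + 1) 0 (by omega), f2_zero q (y + 1) 0 (by omega) (by omega)]
    exact d5 _
  · rw [if_neg (by omega), if_neg (by omega), hh2 q y 0 (by omega),
      f2_zero q y 0 (by omega) (by omega),
      hh0 q (y + 1) 0 (by omega) (by omega) (by omega)]
    simp

theorem side1 (hm : q.m % 3 = 2) (hm8 : 8 ≤ q.m) (ha1 : q.a1 ≠ 0) (x y : ℕ)
    (hy : x + y + 1 = q.m) :
    hh q 0 x - hh q 0 (x + 1) = vec (WN2 q.m q.o1 q.a1 q.b1 y) := by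
  unfold WN2
  have eU : ∀ x, x + 1 = q.m → f2 q 0 x = -q.a1 := by
    intro x hx
    unfold f2
    rw [if_pos (by omega), if_pos rfl, if_pos hx]
  have eS : ∀ x, 4 ≤ x → x + 1 ≠ q.m → f2 q 0 x = B1 q.o1 := by
    intro x hx hx'
    unfold f2
    rw [if_pos (by omega), if_pos rfl, if_neg hx']
  have eQ : f1 q 0 2 = Q2 q := by
    unfold f1
    rw [if_neg (by omega), if_neg (by omega), if_pos ⟨rfl, rfl⟩]
  by_cases h0 : y = 0
  · rw [if_pos h0, hh1 q 0 (x + 1) (by omega), f1_zero q 0 (x + 1) (by omega) (by omega),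
      hh2 q 0 x (by omega), eU x (by omega)]
    exact d3 _ ha1
  rw [if_neg h0]
  by_cases h1 : y = 1
  · rw [if_pos h1, hh0 q 0 x (by omega) (by omega) (by omega), hh2 q 0 (x + 1) (by omega),
      eU (x + 1) (by omega), if_neg ha1]
    simp
  rw [if_neg h1]
  by_cases h2 : y = 2
  · rw [if_pos h2, hh1 q 0 x (by omega), f1_zero q 0 x (by omega) (by omega),
      hh0 q 0 (x + 1) (by omega) (by omega) (by omega), if_neg ha1]
    simp
  rw [if_neg h2]
  by_cases h3 : y + 1 = q.m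
  · obtain rfl : x = 0 := by omega
    rw [if_pos h3, hh0 q 0 0 (by omega) (by omega) (by omega), hh2 q 0 (0 + 1) (by omega), P_eq]
    simp
  rw [if_neg h3]
  by_cases h4 : y + 2 = q.m
  · obtain rfl : x = 1 := by omega
    have e := P_eq q 0
    simp only [zero_add, if_true] at e
    rw [if_pos h4, hh2 q 0 1 (by omega), hh1 q 0 (1 + 1) (by omega), show 1 + 1 = 2 from rfl,
      e, eQ]
    exact d4 _
  rw [if_neg h4]
  by_cases h5 : y + 3 = q.m
  · obtain rfl : x = 2 := by omega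
    rw [if_pos h5, hh1 q 0 2 (by omega), hh0 q 0 (2 + 1) (by omega) (by omega) (by omega), eQ]
    simp [Q2]
  rw [if_neg h5]
  have hc : y % 3 = 0 ∨ y % 3 = 1 ∨ y % 3 = 2 := by omega
  rcases hc with hr | hr | hr
  · rw [if_pos hr, hh2 q 0 x (by omega), eS x (by omega) (by omega), hh1 q 0 (x + 1) (by omega),
      f1_zero q 0 (x + 1) (by omega) (by omega)]
    exact d6 _
  · rw [if_neg (by omega), if_pos hr, hh0 q 0 x (by omega) (by omega) (by omega),
      hh2 q 0 (x + 1) (by omega), eS (x + 1) (by omega) (by omega)]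
    simp
  · rw [if_neg (by omega), if_neg (by omega), hh1 q 0 x (by omega),
      f1_zero q 0 x (by omega) (by omega), hh0 q 0 (x + 1) (by omega) (by omega) (by omega)]
    simp

lemma f1_AB (hm8 : 8 ≤ q.m) (x y : ℕ) (hxy : x + y = q.m) (hr : (x + 2 * y) % 3 = 1)
    (hy : 3 ≤ y) (hx : 1 ≤ x) : f1 q x y = if y + 1 ≤ x then B0 q.o0 else 0 := by
  unfold f1
  by_cases h1 : y + 4 ≤ x
  · rw [if_pos h1, if_neg (by omega), if_pos hxy, if_neg (by omega), if_pos (by omega)]
  by_cases h2 : x = y + 1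
  · rw [if_neg h1, if_pos h2, if_neg (by omega), if_neg (by omega), if_pos (by omega)]
  · rw [if_neg h1, if_neg h2, if_neg (by omega), if_neg (by omega)]

lemma f2_AB (hm8 : 8 ≤ q.m) (x y : ℕ) (hxy : x + y = q.m) (hr : (x + 2 * y) % 3 = 2)
    (hx : 3 ≤ x) (hy : 1 ≤ y) : f2 q x y = if x + 1 ≤ y then B1 q.o0 else 0 := by
  unfold f2
  by_cases h1 : x + 4 ≤ y
  · rw [if_pos h1, if_neg (by omega), if_pos hxy, if_neg (by omega), if_pos (by omega)]
  by_cases h2 : y = x + 1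
  · rw [if_neg h1, if_pos h2, if_neg (by omega), if_neg (by omega), if_pos (by omega)]
  · rw [if_neg h1, if_neg h2, if_neg (by omega), if_neg (by omega)]

theorem side0 (hm : q.m % 3 = 2) (hm8 : 8 ≤ q.m) (x y : ℕ) (hxy : x + y + 1 = q.m) :
    hh q x (y + 1) - hh q (x + 1) y = vec (WM2 q.m q.o0 q.a0 q.b0 y) := by
  unfold WM2
  by_cases h0 : y = 0
  · subst h0
    have e1 : hh q x (0 + 1) = vec q.a0 - vec 0 := by
      unfold hh
      rw [if_pos (by omega), if_pos ⟨by omega, rfl⟩]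
    rw [if_pos rfl, hh2 q (x + 1) 0 (by omega), f2_zero q (x + 1) 0 (by omega) (by omega), e1]
    abel
  rw [if_neg h0]
  by_cases h1 : y = 1
  · subst h1
    have e1 : hh q (x + 1) 1 = vec q.a0 - vec 0 := by
      unfold hh
      rw [if_pos (by omega), if_pos ⟨by omega, rfl⟩]
    have e2 : f1 q x (1 + 1) = if q.a0 ≠ 0 then q.a0 else B0 q.o0 := by
      unfold f1
      rw [if_pos (by omega), if_neg (by omega), if_pos (by omega)]
      simp
    rw [if_pos rfl, hh1 q x (1 + 1) (by omega), e1, e2]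
    exact One.c5 _ _
  rw [if_neg h1]
  by_cases h2 : y = 2
  · subst h2
    have e2 : f1 q (x + 1) 2 = if q.a0 ≠ 0 then q.a0 else B0 q.o0 := by
      unfold f1
      rw [if_pos (by omega), if_neg (by omega), if_pos (by omega)]
      simp
    rw [if_pos rfl, hh1 q (x + 1) 2 (by omega), e2, hh2 q x (2 + 1) (by omega),
      f2_zero q x (2 + 1) (by omega) (by omega)]
    exact One.c6 _ _
  rw [if_neg h2]
  by_cases h3 : y + 1 = q.m
  · obtain rfl : x = 0 := by omega
    have e1 : hh q (0 + 1) y = vec 0 - vec q.b0 := by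
      unfold hh
      rw [if_pos (by omega), if_neg (by omega), if_pos ⟨rfl, h3⟩]
    rw [if_pos h3, hh1 q 0 (y + 1) (by omega), f1_zero q 0 (y + 1) (by omega) (by omega), e1]
    abel
  rw [if_neg h3]
  by_cases h4 : y + 2 = q.m
  · obtain rfl : x = 1 := by omega
    have e1 : hh q 1 (y + 1) = vec 0 - vec q.b0 := by
      unfold hh
      rw [if_pos (by omega), if_neg (by omega), if_pos ⟨rfl, by omega⟩]
    have e2 : f2 q (1 + 1) y = if q.b0 ≠ 0 then q.b0 else B1 q.o0 := by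
      unfold f2
      rw [if_pos (by omega), if_neg (by omega), if_pos (by omega)]
      simp
    rw [if_pos h4, e1, hh2 q (1 + 1) y (by omega), e2]
    exact One.c2 _ _
  rw [if_neg h4]
  by_cases h5 : y + 3 = q.m
  · obtain rfl : x = 2 := by omega
    have e2 : f2 q 2 (y + 1) = if q.b0 ≠ 0 then q.b0 else B1 q.o0 := by
      unfold f2
      rw [if_pos (by omega), if_neg (by omega), if_pos (by omega)]
      simp
    rw [if_pos h5, hh2 q 2 (y + 1) (by omega), hh1 q (2 + 1) y (by omega),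
      f1_zero q (2 + 1) y (by omega) (by omega), e2]
    exact One.c3 _ _
  rw [if_neg h5]
  have hc : y % 3 = 0 ∨ y % 3 = 1 ∨ y % 3 = 2 := by omega
  rcases hc with hr | hr | hr
  · rw [hh2 q (x + 1) y (by omega), hh0 q x (y + 1) (by omega) (by omega) (by omega),
      f2_AB q hm8 (x + 1) y (by omega) (by omega) (by omega) (by omega)]
    simp only [hr, if_true]
    split_ifs <;> first | contradiction | omega | simp
  · rw [hh0 q (x + 1) y (by omega) (by omega) (by omega), hh1 q x (y + 1) (by omega),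
      f1_AB q hm8 x (y + 1) (by omega) (by omega) (by omega) (by omega)]
    simp only [hr]
    split_ifs <;> first | contradiction | omega | simp
  · rw [hh1 q (x + 1) y (by omega), hh2 q x (y + 1) (by omega),
      f1_AB q hm8 (x + 1) y (by omega) (by omega) (by omega) (by omega),
      f2_AB q hm8 x (y + 1) (by omega) (by omega) (by omega) (by omega)]
    simp only [hr]
    split_ifs <;> first | contradiction | omega | exact d5 _ | exact d6 _ | exact d7 _

theorem face (hm : q.m % 3 = 2) (hm8 : 8 ≤ q.m) (hb2 : q.b2 ≠ 0) (ha1 : q.a1 ≠ 0)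
    (h21 : q.b1 ≠ q.a2) (h10 : q.b0 ≠ q.a1) (h02 : q.b2 ≠ q.a0) :
    FaceOK q.m (WM2 q.m q.o0 q.a0 q.b0) (WN2 q.m q.o1 q.a1 q.b1) (WN2 q.m q.o2 q.a2 q.b2) :=
  faceOK_of_height q.m _ _ _ (hh q) (tri q hm hm8 hb2 ha1 h21 h10 h02)
    (side0 q hm hm8) (side1 q hm hm8 ha1) (side2 q hm hm8 hb2)

end Two

end Pool.Agent.H10.GS
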