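import Pool.Agent.H10.GS.Main

/-! The case `m = 5`. -/

set_option autoImplicit false

namespace Pool.Agent.H10.GS
open Triangulation
variable {D : Type*}

/-- the word on a matching edge -/
def MW5 (o : Bool) (k : ℕ) : Fin 3 :=
  (if o = true then [0, 2, 0, 1, 0] else [0, 1, 0, 2, 0] : List (Fin 3)).getD k 0

/-- the word on another edge whose first and last letters are `a` and `b` -/
def NW5 (a b : Fin 3) (k : ℕ) : Fin 3 :=
  (([[0, 0, 0, 0, 0], [0, 2, 1, 2, 1], [0, 1, 2, 1, 2],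
    [1, 2, 1, 2, 0], [1, 2, 0, 2, 1], [1, 2, 0, 1, 2],
    [2, 1, 2, 1, 0], [2, 1, 0, 2, 1], [2, 1, 0, 1, 2]] : List (List (Fin 3))).getD
      (3 * a.val + b.val) []).getD k 0

/-- tables of colours, in base three -/
def tab5 : List (ℕ × ℕ × ℕ) :=
  [(0, 0, 0),
  (0, 0, 0),
  (0, 0, 0),
  (0, 0, 0),
  (0, 0, 0),
  (0, 0, 0),
  (0, 0, 0),
  (0, 0, 0),
  (0, 0, 0),
  (0, 0, 0),
  (0, 0, 0),
  (0, 0, 0),
  (0, 0, 0),
  (0, 0, 0),
  (0, 0, 0),
  (0, 0, 0),
  (0, 0, 0),
  (0, 0, 0),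
  (0, 0, 0),
  (0, 0, 0),
  (0, 0, 0),
  (0, 0, 0),
  (0, 0, 0),
  (0, 0, 0),
  (0, 0, 0),
  (0, 0, 0),
  (0, 0, 0),
  (0, 0, 0),
  (0, 0, 0),
  (0, 0, 0),
  (0, 0, 0),
  (57471689, 7061032185, 3516368647),
  (71820596, 3574247784, 6988804141),
  (0, 0, 0),
  (57529768, 7061150040, 3516192713),
  (71878675, 3574365639, 6988628207),
  (0, 0, 0),
  (57527129, 7061084665, 3516260727),
  (43416119, 3516609391, 7074847011),
  (0, 0, 0),
  (0, 0, 0),
  (0, 0, 0),
  (0, 0, 0),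
  (57526884, 7061144200, 3516201437),
  (71875791, 3574359799, 6988636931),
  (0, 0, 0),
  (57527128, 7061084663, 3516260730),
  (43416118, 3516609389, 7074847014),
  (0, 0, 0),
  (57526884, 7061143955, 3516201682),
  (71875791, 3574359554, 6988637176),
  (0, 0, 0),
  (0, 0, 0),
  (0, 0, 0),
  (0, 0, 0),
  (0, 0, 0),
  (0, 0, 0),
  (0, 0, 0),
  (57526919, 7061144025, 3516201577),
  (71875826, 3574359624, 6988637071),
  (0, 0, 0),
  (57526918, 7061144268, 3516201335),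
  (71875825, 3574359867, 6988636829),
  (0, 0, 0),
  (57527156, 7061084719, 3516260646),
  (43416146, 3516609445, 7074846930),
  (0, 0, 0),
  (0, 0, 0),
  (0, 0, 0),
  (0, 0, 0),
  (57526911, 7061144254, 3516201356),
  (71875818, 3574359853, 6988636850),
  (0, 0, 0),
  (57527155, 7061084717, 3516260649),
  (43416145, 3516609443, 7074846933),
  (0, 0, 0),
  (57526911, 7061144009, 3516201601),
  (71875818, 3574359608, 6988637095),
  (0, 0, 0),
  (0, 0, 0),
  (0, 0, 0),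
  (0, 0, 0),
  (0, 0, 0),
  (0, 0, 0),
  (0, 0, 0),
  (0, 0, 0),
  (0, 0, 0),
  (0, 0, 0),
  (0, 0, 0),
  (0, 0, 0),
  (0, 0, 0),
  (0, 0, 0),
  (0, 0, 0),
  (0, 0, 0),
  (0, 0, 0),
  (0, 0, 0),
  (0, 0, 0),
  (0, 0, 0),
  (0, 0, 0),
  (0, 0, 0),
  (0, 0, 0),
  (0, 0, 0),
  (0, 0, 0),
  (0, 0, 0),
  (0, 0, 0),
  (0, 0, 0),
  (0, 0, 0),
  (0, 0, 0),
  (0, 0, 0),
  (0, 0, 0),
  (0, 0, 0),
  (0, 0, 0),
  (100508009, 7017446247, 3516918265),
  (114856916, 3530661846, 6989353759),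
  (0, 0, 0),
  (100508008, 7017446490, 3516918023),
  (114856915, 3530662089, 6989353517),
  (0, 0, 0),
  (100567289, 7017506503, 3516798729),
  (114857399, 3530543497, 6989471625),
  (0, 0, 0),
  (0, 0, 0),
  (0, 0, 0),
  (0, 0, 0),
  (100567044, 7017566038, 3516739439),
  (114915951, 3530781637, 6989174933),
  (0, 0, 0),
  (100567288, 7017506501, 3516798732),
  (114857398, 3530543495, 6989471628),
  (0, 0, 0),
  (100567044, 7017565793, 3516739684),
  (114915951, 3530781392, 6989175178),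
  (0, 0, 0),
  (0, 0, 0),
  (0, 0, 0),
  (0, 0, 0),
  (0, 0, 0),
  (0, 0, 0),
  (0, 0, 0),
  (100572119, 7017576069, 3516724333),
  (114921026, 3530791668, 6989159827),
  (0, 0, 0),
  (100572598, 7017577284, 3516722639),
  (114921505, 3530792883, 6989158133),
  (0, 0, 0),
  (86574836, 6989171785, 3559125900),
  (114857426, 3530543551, 6989471544),
  (0, 0, 0),
  (0, 0, 0),
  (0, 0, 0),
  (0, 0, 0),
  (86574591, 6989231320, 3559066610),
  (114920298, 3530790439, 6989161784),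
  (0, 0, 0),
  (86574835, 6989171783, 3559125903),
  (114857425, 3530543549, 6989471547),
  (0, 0, 0),
  (86574591, 6989231075, 3559066855),
  (114920298, 3530790194, 6989162029),
  (0, 0, 0),
  (0, 0, 0),
  (0, 0, 0)]

def row5 (o : Bool) (a b b' c : Fin 3) : ℕ × ℕ × ℕ :=
  tab5.getD ((((if o = true then 3 else 0) + a.val) * 27) + b.val * 9 + b'.val * 3 + c.val)
    (0, 0, 0)

def dg5 (t x y : ℕ) : Fin 3 := Fin.ofNat 3 (t / 3 ^ (5 * x + y))

/-- three different colours -/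
def Df (a b c : Fin 3) : Prop := a ≠ b ∧ b ≠ c ∧ c ≠ a

instance (a b c : Fin 3) : Decidable (Df a b c) :=
  inferInstanceAs (Decidable (a ≠ b ∧ b ≠ c ∧ c ≠ a))

def Chk5 (w0 w1 w2 : ℕ → Fin 3) (t : ℕ × ℕ × ℕ) : Prop :=
    (∀ x < 5, ∀ y < 5, x + y + 1 ≤ 5 → Df (dg5 t.1 x y) (dg5 t.2.1 x y) (dg5 t.2.2 x y)) ∧
    (∀ x < 5, ∀ y < 5, x + y + 2 ≤ 5 →
      Df (dg5 t.1 x y) (dg5 t.2.1 (x + 1) y) (dg5 t.2.2 x (y + 1))) ∧
    (∀ y < 5, dg5 t.1 (4 - y) y = w0 y) ∧ (∀ y < 5, dg5 t.2.1 0 (4 - y) = w1 y) ∧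
    (∀ y < 5, dg5 t.2.2 y 0 = w2 y)

instance (w0 w1 w2 : ℕ → Fin 3) (t : ℕ × ℕ × ℕ) : Decidable (Chk5 w0 w1 w2 t) := by
  unfold Chk5
  infer_instance

lemma faceOK_five {w0 w1 w2 : ℕ → Fin 3} {t : ℕ × ℕ × ℕ} (h : Chk5 w0 w1 w2 t) :
    FaceOK 5 w0 w1 w2 := by
  obtain ⟨h1, h2, h3, h4, h5⟩ := h
  refine ⟨dg5 t.1, dg5 t.2.1, dg5 t.2.2, ?_, ?_, ?_, ?_, ?_⟩
  · intro x y hxy
    exact h1 x (by omega) y (by omega) hxy
  · intro x y hxy
    exact h2 x (by omega) y (by omega) hxy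
  · intro x y hxy
    have := h3 y (by omega)
    rwa [show 4 - y = x by omega] at this
  · intro x y hxy
    have := h4 y (by omega)
    rwa [show 4 - y = x by omega] at this
  · intro y hy
    exact h5 y (by omega)

set_option maxRecDepth 100000 in
lemma five_all : ∀ (o : Bool) (a b b' c : Fin 3), a ≠ 0 → c ≠ 0 → b ≠ b' →
    Chk5 (MW5 o) (NW5 a b) (NW5 b' c) (row5 o a b b' c) := by
  decide +kernel

lemma exists_spokes5 [Finite D] (G : Triangulation D) (hG : G.Loopless) (M : D → Prop)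
    (hM : ∀ x, M x → ¬ M (G.rot x)) :
    ∃ c : D → Fin 3, (∀ d, c (G.rot d) ≠ c d) ∧ (∀ d, M d → c d = 0) ∧
      ∀ d, ¬ M d → (∃ y, G.rotPerm.SameCycle d y ∧ M y) → c d ≠ 0 := by
  classical
  obtain ⟨c0, h0, -⟩ := exists_spokes G hG (fun _ => False)
    (fun x => ⟨x, Equiv.Perm.SameCycle.refl _ _, id⟩)
  let P : D → Prop := fun d => ∃ y, G.rotPerm.SameCycle d y ∧ M y
  have hP : ∀ d, P (G.rot d) ↔ P d := by
    intro d
    have h1 : ∀ y, G.rotPerm.SameCycle (G.rot d) y ↔ G.rotPerm.SameCycle d y := fun y =>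
      Equiv.Perm.sameCycle_apply_left (f := G.rotPerm) (x := d) (y := y)
    simp only [P, h1]
  have key : ∀ d, P d → ∃ n : ℕ, M (((G.rotPerm⁻¹) ^ n) d) := by
    rintro d ⟨y, hy, hMy⟩
    have h1 : (G.rotPerm⁻¹).SameCycle d y := Equiv.Perm.sameCycle_inv.2 hy
    obtain ⟨i, -, hi⟩ := h1.exists_pow_eq'
    exact ⟨i, by rw [hi]; exact hMy⟩
  let n : D → ℕ := fun d => if h : ∃ n : ℕ, M (((G.rotPerm⁻¹) ^ n) d) then Nat.find h else 0
  have hn0 : ∀ d, P d → (n d = 0 ↔ M d) := by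
    intro d hd
    have h := key d hd
    simp only [n, h, dif_pos, Nat.find_eq_zero, pow_zero, Equiv.Perm.coe_one, id]
  have hn1 : ∀ d, P d → ¬ M (G.rot d) → n (G.rot d) = n d + 1 := by
    intro d hd hr
    have h := key d hd
    have h' := key (G.rot d) ((hP d).2 hd)
    simp only [n, h, h', dif_pos]
    have e : ∀ k : ℕ, ((G.rotPerm⁻¹) ^ (k + 1)) (G.rot d) = ((G.rotPerm⁻¹) ^ k) d := by
      intro k
      rw [pow_succ, Equiv.Perm.mul_apply]
      congr 1
      exact G.rotPerm.symm_apply_apply d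
    have h2 : ∃ k : ℕ, M (((G.rotPerm⁻¹) ^ (k + 1)) (G.rot d)) := by
      obtain ⟨k, hk⟩ := h
      exact ⟨k, by rw [e]; exact hk⟩
    rw [Nat.find_comp_succ h' h2 (by simpa using hr)]
    congr 1
    simp only [e]
  refine ⟨fun d => if P d then (if n d = 0 then 0 else if n d % 2 = 1 then 1 else 2) else c0 d,
    ?_, ?_, ?_⟩
  · intro d
    by_cases hd : P d
    · simp only [hd, (hP d).2 hd, if_true]
      by_cases hr : M (G.rot d)
      · have h1 : n (G.rot d) = 0 := (hn0 _ ((hP d).2 hd)).2 hr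
        have h2 : n d ≠ 0 := fun h => hM d ((hn0 d hd).1 h) hr
        rw [if_pos h1, if_neg h2]
        split_ifs <;> decide
      · have h1 := hn1 d hd hr
        rw [h1, if_neg (by omega : ¬ n d + 1 = 0)]
        by_cases h2 : n d = 0
        · rw [if_pos h2, if_pos (by omega : (n d + 1) % 2 = 1)]
          decide
        · rw [if_neg h2]
          by_cases h3 : n d % 2 = 1
          · rw [if_pos h3, if_neg (by omega : ¬ (n d + 1) % 2 = 1)]
            decide
          · rw [if_neg h3, if_pos (by omega : (n d + 1) % 2 = 1)]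
            decide
    · have hd' : ¬ P (G.rot d) := fun h => hd ((hP d).1 h)
      simp only [hd, hd', if_false]
      exact h0 d
  · intro d hd
    have hPd : P d := ⟨d, Equiv.Perm.SameCycle.refl _ _, hd⟩
    simp only [hPd, if_true]
    rw [if_pos ((hn0 d hPd).2 hd)]
  · intro d hd hPd
    have hPd' : P d := hPd
    simp only [hPd', if_true]
    rw [if_neg (fun h => hd ((hn0 d hPd').1 h))]
    split_ifs <;> decide


lemma MW5_rev (o : Bool) (x y : ℕ) (hxy : x + y + 1 = 5) : MW5 (!o) x = MW5 o y := by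
  have h : ∀ o : Bool, ∀ y < 5, MW5 (!o) (4 - y) = MW5 o y := by decide
  have := h o y (by omega)
  rwa [show 4 - y = x by omega] at this

lemma NW5_rev (a b : Fin 3) (x y : ℕ) (hxy : x + y + 1 = 5) : NW5 b a x = NW5 a b y := by
  have h : ∀ a b : Fin 3, ∀ y < 5, NW5 b a (4 - y) = NW5 a b y := by decide
  have := h a b y (by omega)
  rwa [show 4 - y = x by omega] at this

theorem main_five [Finite D] (G : Triangulation D) (hG : G.Loopless) :
    (G.subdivide 5).DualColourable := by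
  classical
  obtain ⟨M, hM, hM1⟩ := petersen G hG
  obtain ⟨o, ho⟩ := exists_orient G
  have hMrot : ∀ x, M x → ¬ M (G.rot x) := by
    intro x hx h
    rw [Triangulation.rot, hM] at h
    rcases hM1 x with h1 | h1 | h1
    · exact h1.2.2 h
    · exact h1.1 hx
    · exact h1.1 hx
  obtain ⟨c, hc, -, hc0⟩ := exists_spokes5 G hG M hMrot
  refine assemble G 5 M hM1 (fun d => if M d then MW5 (o d)
    else NW5 (c d) (c (G.rev d))) ?_ ?_
  · intro d x y hxy
    simp only [hM, ho, G.rev_rev]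
    by_cases hd : M d
    · simp only [hd, if_true]
      exact MW5_rev _ x y hxy
    · simp only [hd, if_false]
      exact NW5_rev _ _ x y hxy
  · intro e he
    have h1 : ¬ M (G.nxt e) := by
      rcases hM1 e with h1 | h1 | h1
      · exact h1.2.1
      · exact absurd he h1.1
      · exact absurd he h1.1
    have h2 : ¬ M (G.nxt (G.nxt e)) := by
      rcases hM1 e with h1 | h1 | h1
      · exact h1.2.2
      · exact absurd he h1.1
      · exact absurd he h1.1
    simp only [he, h1, h2, if_true, if_false]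
    have e1 : G.rot (G.nxt (G.nxt e)) = G.rev (G.nxt e) := by simp [Triangulation.rot, G.nxt_three]
    have e2 : G.rot (G.nxt e) = G.rev e := by simp [Triangulation.rot, G.nxt_three]
    have s1 : G.rotPerm.SameCycle (G.nxt e) (G.rev e) := by
      rw [← e2]
      exact Equiv.Perm.sameCycle_apply_right.2 (Equiv.Perm.SameCycle.refl _ _)
    have s2 : G.rotPerm.SameCycle (G.rev (G.nxt (G.nxt e))) e :=
      (Equiv.Perm.sameCycle_apply_left (f := G.rotPerm) (x := e) (y := e)).2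
        (Equiv.Perm.SameCycle.refl _ _)
    exact faceOK_five (five_all (o e) (c (G.nxt e)) (c (G.rev (G.nxt e))) (c (G.nxt (G.nxt e)))
      (c (G.rev (G.nxt (G.nxt e))))
      (hc0 _ h1 ⟨G.rev e, s1, (hM e).2 he⟩)
      (hc0 _ (by rw [hM]; exact h2) ⟨e, s2, he⟩)
      (by rw [← e1]; exact hc _))

theorem main_all [Finite D] (G : Triangulation D) (hG : G.Loopless) (m : ℕ)
    (hm5 : 5 ≤ m) (h3 : m % 3 ≠ 0) : (G.subdivide m).DualColourable := by
  rcases Nat.lt_or_ge 5 m with h | h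
  · exact main_six G hG m h h3
  · obtain rfl : m = 5 := by omega
    exact main_five G hG

end Pool.Agent.H10.GS
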