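import Pool.Agent.H10.GS.Base

/-! Petersen's theorem for the dual cubic graph of a loopless triangulation. -/

set_option autoImplicit false

namespace Pool.Agent.H10.GS
open Triangulation
variable {D : Type*}

lemma no_bridge [Finite D] (G : Triangulation D) (hG : G.Loopless) (A : Set D)
    (hA : ∀ x ∈ A, G.nxt x ∈ A) (d0 : D) (h0 : d0 ∈ A) (hd0 : G.rev d0 ∉ A)
    (hu : ∀ x ∈ A, G.rev x ∉ A → x = d0) : False := by
  have hrot : G.rot (G.nxt d0) = G.rev d0 := by simp [Triangulation.rot, G.nxt_three]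
  have hs1 : G.rotPerm.SameCycle (G.nxt d0) (G.rev d0) := by
    rw [← hrot]
    exact Equiv.Perm.sameCycle_apply_right.2 (Equiv.Perm.SameCycle.refl _ _)
  by_cases hs : G.rotPerm.SameCycle (G.nxt d0) d0
  · exact not_sameCycle G hG d0 (hs.symm.trans hs1)
  have key : ∀ n : ℕ, ((G.rotPerm)⁻¹ ^ n) (G.nxt d0) ∈ A := by
    intro n
    induction n with
    | zero => simpa using hA d0 h0
    | succ n ih =>
      rw [pow_succ', Equiv.Perm.mul_apply]
      set x := ((G.rotPerm)⁻¹ ^ n) (G.nxt d0) with hx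
      have hxs : G.rotPerm.SameCycle (G.nxt d0) x := by
        refine ⟨-(n : ℤ), ?_⟩
        rw [hx]
        simp
      have hxd : x ≠ d0 := by
        intro h
        rw [h] at hxs
        exact hs hxs
      have hr : G.rev x ∈ A := by
        by_contra h
        exact hxd (hu x ih h)
      exact hA _ hr
  obtain ⟨i, _, hi⟩ := (Equiv.Perm.sameCycle_inv.2 hs1).exists_pow_eq'
  apply hd0
  rw [← hi]
  exact key i

/-- the faces -/
def faceSetoid (G : Triangulation D) : Setoid D where
  r d e := e = d ∨ e = G.nxt d ∨ e = G.nxt (G.nxt d)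
  iseqv := by
    refine ⟨fun d => Or.inl rfl, ?_, ?_⟩
    · rintro d e (rfl | rfl | rfl)
      · exact Or.inl rfl
      · right; right; exact (G.nxt_three d).symm
      · right; left; exact (G.nxt_three d).symm
    · rintro d e f (rfl | rfl | rfl) (rfl | rfl | rfl)
      · left; rfl
      · right; left; rfl
      · right; right; rfl
      · right; left; rfl
      · right; right; rfl
      · left; exact G.nxt_three d
      · right; right; rfl
      · left; exact G.nxt_three d
      · right; left; rw [G.nxt_three]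

abbrev Face (G : Triangulation D) : Type _ := Quotient (faceSetoid G)

def fc (G : Triangulation D) (d : D) : Face G := Quotient.mk (faceSetoid G) d

lemma fc_eq (G : Triangulation D) {d e : D} :
    fc G d = fc G e ↔ e = d ∨ e = G.nxt d ∨ e = G.nxt (G.nxt d) := by
  unfold fc
  rw [Quotient.eq]
  rfl

lemma fc_nxt (G : Triangulation D) (d : D) : fc G (G.nxt d) = fc G d :=
  ((fc_eq G).2 (Or.inr (Or.inl rfl))).symm

lemma fc_surj (G : Triangulation D) (f : Face G) : ∃ d, fc G d = f := Quotient.exists_rep f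

/-- preimage of a set of faces has three times as many elements -/
lemma ncard_fc [Finite D] (G : Triangulation D) (S : Set (Face G)) :
    (fc G ⁻¹' S).ncard = 3 * S.ncard := by
  classical
  have hfin : Fintype D := Fintype.ofFinite D
  have hfinF : Fintype (Face G) := Fintype.ofFinite _
  have h1 : ∀ f : Face G, (fc G ⁻¹' {f}).ncard = 3 := by
    intro f
    obtain ⟨d, rfl⟩ := fc_surj G f
    have : fc G ⁻¹' {fc G d} = {d, G.nxt d, G.nxt (G.nxt d)} := by
      ext e
      simp only [Set.mem_preimage, Set.mem_singleton_iff, Set.mem_insert_iff]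
      rw [eq_comm, fc_eq]
    rw [this, Set.ncard_eq_three]
    exact ⟨d, G.nxt d, G.nxt (G.nxt d), (G.nxt_ne d).symm, (nxt_nxt_ne G d).symm,
      (G.nxt_ne (G.nxt d)).symm, rfl⟩
  have h2 : ∀ f : Face G, (Finset.univ.filter (fun d : D => fc G d = f)).card = 3 := by
    intro f
    rw [← h1 f, ← Set.ncard_coe_finset]
    congr 1
    ext d
    simp
  rw [Set.ncard_eq_toFinset_card', Set.ncard_eq_toFinset_card']
  rw [Finset.card_eq_sum_card_fiberwise (f := fc G) (t := S.toFinset) (by
    intro x hx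
    simpa using hx)]
  rw [Finset.sum_congr rfl (g := fun _ => 3)]
  · simp [mul_comm]
  · intro f hf
    rw [← h2 f]
    congr 1
    ext d
    simp only [Finset.mem_filter, Set.mem_toFinset, Set.mem_preimage, Finset.mem_univ, true_and]
    constructor
    · exact fun h => h.2
    · rintro rfl
      exact ⟨by simpa using hf, rfl⟩

/-- the dual graph without loops and multiple edges -/
def dualG (G : Triangulation D) : SimpleGraph (Face G) where
  Adj f g := f ≠ g ∧ ∃ d, fc G d = f ∧ fc G (G.rev d) = g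
  symm := ⟨by
    rintro f g ⟨hne, d, h1, h2⟩
    exact ⟨hne.symm, G.rev d, h2, by rw [G.rev_rev]; exact h1⟩⟩
  loopless := ⟨fun f h => h.1 rfl⟩

lemma even_ncard_inv [Finite D] (f : D → D) (hf : ∀ d, f (f d) = d) (hne : ∀ d, f d ≠ d)
    (S : Set D) (hS : ∀ d ∈ S, f d ∈ S) : Even S.ncard := by
  classical
  have hfin : Fintype D := Fintype.ofFinite D
  rw [Set.ncard_eq_toFinset_card']
  have h : ∑ x ∈ S.toFinset, (1 : ZMod 2) = 0 := by
    refine Finset.sum_involution (fun a _ => f a) (fun a ha => by decide)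
      (fun a ha _ => hne a) (fun a ha => ?_) (fun a ha => hf a)
    rw [Set.mem_toFinset] at ha ⊢
    exact hS a ha
  rw [Finset.sum_const, nsmul_eq_mul, mul_one] at h
  rwa [ZMod.natCast_eq_zero_iff_even] at h

/-- the darts that leave `A` -/
lemma leaving [Finite D] (G : Triangulation D) (hG : G.Loopless) (A : Set D)
    (hA : ∀ x ∈ A, G.nxt x ∈ A) (hodd : Odd A.ncard) :
    3 ≤ {d | d ∈ A ∧ G.rev d ∉ A}.ncard := by
  classical
  have h1 : A = {d | d ∈ A ∧ G.rev d ∉ A} ∪ {d | d ∈ A ∧ G.rev d ∈ A} := by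
    ext d
    simp only [Set.mem_union, Set.mem_setOf_eq]
    tauto
  have h2 : Disjoint {d | d ∈ A ∧ G.rev d ∉ A} {d | d ∈ A ∧ G.rev d ∈ A} := by
    rw [Set.disjoint_left]
    rintro d ⟨-, h⟩ ⟨-, h'⟩
    exact h h'
  have h3 : Even {d | d ∈ A ∧ G.rev d ∈ A}.ncard := by
    apply even_ncard_inv G.rev G.rev_rev G.rev_ne
    rintro d ⟨h, h'⟩
    exact ⟨h', by rw [G.rev_rev]; exact h⟩
  have h4 : A.ncard = {d | d ∈ A ∧ G.rev d ∉ A}.ncard + {d | d ∈ A ∧ G.rev d ∈ A}.ncard := by
    rw [← Set.ncard_union_eq h2 (Set.toFinite _) (Set.toFinite _), ← h1]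
  have h5 : Odd {d | d ∈ A ∧ G.rev d ∉ A}.ncard := by
    rw [h4] at hodd
    rcases h3 with ⟨a, ha⟩
    rcases hodd with ⟨b, hb⟩
    exact ⟨b - a, by omega⟩
  have h6 : {d | d ∈ A ∧ G.rev d ∉ A}.ncard ≠ 1 := by
    intro h
    obtain ⟨d0, hd0⟩ := Set.ncard_eq_one.1 h
    have hd0' : d0 ∈ {d | d ∈ A ∧ G.rev d ∉ A} := by rw [hd0]; rfl
    refine no_bridge G hG A hA d0 hd0'.1 hd0'.2 (fun x hx hx' => ?_)
    have : x ∈ {d | d ∈ A ∧ G.rev d ∉ A} := ⟨hx, hx'⟩
    rw [hd0] at this
    exact this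
  rcases h5 with ⟨b, hb⟩
  omega

theorem no_violator [Finite D] (G : Triangulation D) (hG : G.Loopless) (u : Set (Face G)) :
    ¬ (dualG G).IsTutteViolator u := by
  classical
  intro hv
  have hfin : Fintype D := Fintype.ofFinite D
  unfold SimpleGraph.IsTutteViolator at hv
  set H := ((⊤ : (dualG G).Subgraph).deleteVerts u) with hH
  -- the component of a dart
  have hmem : ∀ f : Face G, f ∈ H.verts ↔ f ∉ u := by
    intro f
    simp [hH]
  -- darts of the component c
  let A : H.coe.ConnectedComponent → Set D := fun c =>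
    {d | ∃ h : fc G d ∈ H.verts, H.coe.connectedComponentMk ⟨fc G d, h⟩ = c}
  have hAn : ∀ c, ∀ x ∈ A c, G.nxt x ∈ A c := by
    rintro c x ⟨h, h'⟩
    refine ⟨by rw [fc_nxt]; exact h, ?_⟩
    rw [← h']
    congr 2
    exact fc_nxt G x
  have hAc : ∀ c, (A c).ncard = 3 * c.supp.ncard := by
    intro c
    have e1 : A c = fc G ⁻¹' (Subtype.val '' c.supp) := by
      ext d
      simp only [A, Set.mem_setOf_eq, Set.mem_preimage, Set.mem_image, Subtype.exists,
        SimpleGraph.ConnectedComponent.mem_supp_iff]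
      constructor
      · rintro ⟨h, h'⟩
        exact ⟨fc G d, h, h', rfl⟩
      · rintro ⟨f, h, h', rfl⟩
        exact ⟨h, h'⟩
    rw [e1, ncard_fc, Set.ncard_image_of_injective _ Subtype.val_injective]
  have hout : ∀ c, ∀ d ∈ A c, G.rev d ∉ A c → fc G (G.rev d) ∈ u := by
    rintro c d ⟨h, h'⟩ hr
    by_contra hu
    have hu' : fc G (G.rev d) ∈ H.verts := (hmem _).2 hu
    apply hr
    refine ⟨hu', ?_⟩
    rw [← h']
    by_cases he : fc G d = fc G (G.rev d)
    · congr 2
      exact he.symm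
    · apply SimpleGraph.ConnectedComponent.sound
      apply SimpleGraph.Adj.reachable
      simp only [SimpleGraph.Subgraph.coe_adj]
      rw [hH, SimpleGraph.Subgraph.deleteVerts_adj]
      refine ⟨trivial, hu, trivial, (hmem _).1 h, ?_⟩
      simp only [SimpleGraph.Subgraph.top_adj]
      exact ⟨fun h => he h.symm, G.rev d, rfl, by rw [G.rev_rev]⟩
  -- count
  let B : H.coe.ConnectedComponent → Set D := fun c => {d | d ∈ A c ∧ G.rev d ∉ A c}
  have hB : ∀ c ∈ H.coe.oddComponents, 3 ≤ (B c).ncard := by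
    intro c hc
    apply leaving G hG (A c) (hAn c)
    rw [hAc c]
    exact Odd.mul (by decide) hc
  have hsub : (⋃ c ∈ H.coe.oddComponents, B c) ⊆ {d | fc G (G.rev d) ∈ u} := by
    intro d hd
    simp only [Set.mem_iUnion] at hd
    obtain ⟨c, -, hd1, hd2⟩ := hd
    exact hout c d hd1 hd2
  have hcard : {d | fc G (G.rev d) ∈ u}.ncard = 3 * u.ncard := by
    rw [← ncard_fc]
    have : {d | fc G (G.rev d) ∈ u} = G.rev '' (fc G ⁻¹' u) := by
      ext d
      simp only [Set.mem_setOf_eq, Set.mem_image, Set.mem_preimage]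
      constructor
      · intro h
        exact ⟨G.rev d, h, G.rev_rev d⟩
      · rintro ⟨e, he, rfl⟩
        rw [G.rev_rev]
        exact he
    rw [this, Set.ncard_image_of_injective]
    intro a b hab
    rw [← G.rev_rev a, hab, G.rev_rev]
  have hdisj : ∀ c c', c ≠ c' → Disjoint (B c) (B c') := by
    intro c c' hcc
    rw [Set.disjoint_left]
    rintro d ⟨⟨h, h1⟩, -⟩ ⟨⟨h', h2⟩, -⟩
    exact hcc (h1.symm.trans h2)
  have hsum : 3 * H.coe.oddComponents.ncard ≤ (⋃ c ∈ H.coe.oddComponents, B c).ncard := by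
    have hf : H.coe.oddComponents.Finite := Set.toFinite _
    rw [Set.ncard_eq_toFinset_card _ hf]
    have e1 : (⋃ c ∈ H.coe.oddComponents, B c) =
        ↑(hf.toFinset.biUnion (fun c => (B c).toFinset)) := by
      ext d
      simp
    rw [e1, Set.ncard_coe_finset, Finset.card_biUnion]
    · calc 3 * hf.toFinset.card = ∑ c ∈ hf.toFinset, 3 := by simp [mul_comm]
        _ ≤ ∑ c ∈ hf.toFinset, (B c).toFinset.card := by
          apply Finset.sum_le_sum
          intro c hc
          rw [← Set.ncard_eq_toFinset_card']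
          exact hB c (by simpa using hc)
    · intro c _ c' _ hcc
      rw [Function.onFun, Set.disjoint_toFinset]
      exact hdisj c c' hcc
  have := Set.ncard_le_ncard hsub (Set.toFinite _)
  omega

theorem petersen [Finite D] (G : Triangulation D) (hG : G.Loopless) :
    ∃ M : D → Prop, (∀ d, M (G.rev d) ↔ M d) ∧
      ∀ d, (M d ∧ ¬ M (G.nxt d) ∧ ¬ M (G.nxt (G.nxt d))) ∨
        (¬ M d ∧ M (G.nxt d) ∧ ¬ M (G.nxt (G.nxt d))) ∨
        (¬ M d ∧ ¬ M (G.nxt d) ∧ M (G.nxt (G.nxt d))) := by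
  classical
  obtain ⟨N, hN⟩ := (SimpleGraph.tutte (G := dualG G)).2 (no_violator G hG)
  rw [SimpleGraph.Subgraph.isPerfectMatching_iff] at hN
  -- choose a dart for every edge of N
  have h1 : ∀ e : Sym2 (Face G), ∃ d : D, e ∈ N.edgeSet → s(fc G d, fc G (G.rev d)) = e := by
    intro e
    by_cases he : e ∈ N.edgeSet
    · induction e using Sym2.ind with
      | _ f g =>
        have : (dualG G).Adj f g := N.adj_sub he
        obtain ⟨-, d, h2, h3⟩ := this
        exact ⟨d, fun _ => by rw [h2, h3]⟩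
    · obtain ⟨d, -⟩ := fc_surj G (Quot.out e).1
      exact ⟨d, fun h => absurd h he⟩
  choose δ hδ using h1
  let M : D → Prop := fun d => s(fc G d, fc G (G.rev d)) ∈ N.edgeSet ∧
    (d = δ s(fc G d, fc G (G.rev d)) ∨ G.rev d = δ s(fc G d, fc G (G.rev d)))
  have hMr : ∀ d, M (G.rev d) ↔ M d := by
    intro d
    simp only [M, G.rev_rev]
    rw [Sym2.eq_swap]
    tauto
  -- exactly one dart in every face
  have hex : ∀ f : Face G, ∃ d, fc G d = f ∧ M d := by
    intro f
    obtain ⟨g, hg, -⟩ := hN f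
    have he : s(f, g) ∈ N.edgeSet := hg
    have h2 := hδ s(f, g) he
    rw [Sym2.eq_iff] at h2
    rcases h2 with ⟨h2, h3⟩ | ⟨h2, h3⟩
    · refine ⟨δ s(f, g), h2, ?_⟩
      simp only [M]
      rw [h2, h3]
      exact ⟨he, Or.inl rfl⟩
    · refine ⟨G.rev (δ s(f, g)), h3, ?_⟩
      simp only [M, G.rev_rev]
      rw [h2, h3]
      exact ⟨he, Or.inr rfl⟩
  have huniq : ∀ d d', fc G d = fc G d' → M d → M d' → d = d' := by
    rintro d d' hf ⟨h2, h3⟩ ⟨h4, h5⟩
    obtain ⟨g, hg, hg'⟩ := hN (fc G d)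
    have e1 : fc G (G.rev d) = g := hg' _ h2
    have e2 : fc G (G.rev d') = g := hg' _ (by rw [hf]; exact h4)
    rw [← hf, e2] at h5
    rw [e1] at h3
    have hadj : (dualG G).Adj (fc G d) g := N.adj_sub hg
    have hne : fc G d ≠ g := hadj.1
    rcases h3 with h3 | h3 <;> rcases h5 with h5 | h5
    · rw [h3, h5]
    · exfalso
      apply hne
      rw [← e2, h5, ← h3]
    · exfalso
      apply hne
      rw [← e1, h3, ← h5, hf]
    · rw [← G.rev_rev d, ← G.rev_rev d', h3, h5]
  refine ⟨M, hMr, fun d => ?_⟩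
  obtain ⟨e, he, hMe⟩ := hex (fc G d)
  have f1 : fc G (G.nxt d) = fc G d := fc_nxt G d
  have f2 : fc G (G.nxt (G.nxt d)) = fc G d := by rw [fc_nxt, fc_nxt]
  have n1 : G.nxt d ≠ d := G.nxt_ne d
  have n2 : G.nxt (G.nxt d) ≠ d := nxt_nxt_ne G d
  have n3 : G.nxt (G.nxt d) ≠ G.nxt d := G.nxt_ne _
  rcases (fc_eq G).1 he.symm with rfl | rfl | rfl
  · left
    exact ⟨hMe, fun h => n1 (huniq _ _ f1 h hMe), fun h => n2 (huniq _ _ f2 h hMe)⟩
  · right; left
    exact ⟨fun h => n1 (huniq _ _ f1 hMe h), hMe, fun h => n3 (huniq _ _ (f2.trans f1.symm) h hMe)⟩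
  · right; right
    exact ⟨fun h => n2 (huniq _ _ f2 hMe h), fun h => n3 (huniq _ _ (f2.trans f1.symm) hMe h), hMe⟩

end Pool.Agent.H10.GS
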