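import Pool.Agent.H10.GS.FaceTwo
import Pool.Agent.H10.GS.Petersen

/-! The theorem for all `m` that are not divisible by 3. -/

set_option autoImplicit false

namespace Pool.Agent.H10.GS
open Triangulation
variable {D : Type*}

lemma B0_not (o : Bool) : B0 (!o) = B1 o := by revert o; decide
lemma B1_not (o : Bool) : B1 (!o) = B0 o := by revert o; decide

lemma WN1_rev (m : ℕ) (hm : m % 3 = 1) (hmb : 7 ≤ m) (o : Bool) (a b : Fin 3) (x y : ℕ)
    (hxy : x + y + 1 = m) : WN1 m (!o) b a x = WN1 m o a b y := by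
  have hc : y = 0 ∨ y = 1 ∨ y = 2 ∨ x = 0 ∨ x = 1 ∨ x = 2 ∨ (3 ≤ x ∧ 3 ≤ y) := by omega
  unfold WN1
  rw [B0_not, B1_not]
  rcases hc with h | h | h | h | h | h | ⟨h, h'⟩
  · rw [if_neg (by omega : ¬ x = 0), if_neg (by omega : ¬ x = 1), if_neg (by omega : ¬ x = 2),
      if_pos (by omega : x + 1 = m), if_pos (by omega : y = 0)]
  · rw [if_neg (by omega : ¬ x = 0), if_neg (by omega : ¬ x = 1), if_neg (by omega : ¬ x = 2),
      if_neg (by omega : ¬ x + 1 = m), if_pos (by omega : x + 2 = m),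
      if_neg (by omega : ¬ y = 0), if_pos (by omega : y = 1)]
  · rw [if_neg (by omega : ¬ x = 0), if_neg (by omega : ¬ x = 1), if_neg (by omega : ¬ x = 2),
      if_neg (by omega : ¬ x + 1 = m), if_neg (by omega : ¬ x + 2 = m),
      if_pos (by omega : x + 3 = m), if_neg (by omega : ¬ y = 0),
      if_neg (by omega : ¬ y = 1), if_pos (by omega : y = 2)]
  · rw [if_pos (by omega : x = 0), if_neg (by omega : ¬ y = 0), if_neg (by omega : ¬ y = 1),
      if_neg (by omega : ¬ y = 2), if_pos (by omega : y + 1 = m)]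
  · rw [if_neg (by omega : ¬ x = 0), if_pos (by omega : x = 1), if_neg (by omega : ¬ y = 0),
      if_neg (by omega : ¬ y = 1), if_neg (by omega : ¬ y = 2),
      if_neg (by omega : ¬ y + 1 = m), if_pos (by omega : y + 2 = m)]
  · rw [if_neg (by omega : ¬ x = 0), if_neg (by omega : ¬ x = 1), if_pos (by omega : x = 2),
      if_neg (by omega : ¬ y = 0), if_neg (by omega : ¬ y = 1),
      if_neg (by omega : ¬ y = 2), if_neg (by omega : ¬ y + 1 = m),
      if_neg (by omega : ¬ y + 2 = m), if_pos (by omega : y + 3 = m)]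
  · rw [if_neg (by omega : ¬ x = 0), if_neg (by omega : ¬ x = 1), if_neg (by omega : ¬ x = 2),
      if_neg (by omega : ¬ x + 1 = m), if_neg (by omega : ¬ x + 2 = m),
      if_neg (by omega : ¬ x + 3 = m), if_neg (by omega : ¬ y = 0),
      if_neg (by omega : ¬ y = 1), if_neg (by omega : ¬ y = 2),
      if_neg (by omega : ¬ y + 1 = m), if_neg (by omega : ¬ y + 2 = m),
      if_neg (by omega : ¬ y + 3 = m)]
    have hr : y % 3 = 0 ∨ y % 3 = 1 ∨ y % 3 = 2 := by omega
    rcases hr with hr | hr | hr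
    · rw [if_pos (by omega : y % 3 = 0), if_pos (by omega : x % 3 = 0)]
    · rw [if_neg (by omega : ¬ y % 3 = 0), if_pos (by omega : y % 3 = 1),
      if_neg (by omega : ¬ x % 3 = 0), if_neg (by omega : ¬ x % 3 = 1)]
    · rw [if_neg (by omega : ¬ y % 3 = 0), if_neg (by omega : ¬ y % 3 = 1),
      if_neg (by omega : ¬ x % 3 = 0), if_pos (by omega : x % 3 = 1)]

lemma WN2_rev (m : ℕ) (hm : m % 3 = 2) (hmb : 8 ≤ m) (o : Bool) (a b : Fin 3) (x y : ℕ)
    (hxy : x + y + 1 = m) : WN2 m (!o) b a x = WN2 m o a b y := by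
  have hc : y = 0 ∨ y = 1 ∨ y = 2 ∨ x = 0 ∨ x = 1 ∨ x = 2 ∨ (3 ≤ x ∧ 3 ≤ y) := by omega
  unfold WN2
  rw [B0_not, B1_not]
  rcases hc with h | h | h | h | h | h | ⟨h, h'⟩
  · rw [if_neg (by omega : ¬ x = 0), if_neg (by omega : ¬ x = 1), if_neg (by omega : ¬ x = 2),
      if_pos (by omega : x + 1 = m), if_pos (by omega : y = 0)]
  · rw [if_neg (by omega : ¬ x = 0), if_neg (by omega : ¬ x = 1), if_neg (by omega : ¬ x = 2),
      if_neg (by omega : ¬ x + 1 = m), if_pos (by omega : x + 2 = m),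
      if_neg (by omega : ¬ y = 0), if_pos (by omega : y = 1)]
  · rw [if_neg (by omega : ¬ x = 0), if_neg (by omega : ¬ x = 1), if_neg (by omega : ¬ x = 2),
      if_neg (by omega : ¬ x + 1 = m), if_neg (by omega : ¬ x + 2 = m),
      if_pos (by omega : x + 3 = m), if_neg (by omega : ¬ y = 0),
      if_neg (by omega : ¬ y = 1), if_pos (by omega : y = 2)]
  · rw [if_pos (by omega : x = 0), if_neg (by omega : ¬ y = 0), if_neg (by omega : ¬ y = 1),
      if_neg (by omega : ¬ y = 2), if_pos (by omega : y + 1 = m)]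
  · rw [if_neg (by omega : ¬ x = 0), if_pos (by omega : x = 1), if_neg (by omega : ¬ y = 0),
      if_neg (by omega : ¬ y = 1), if_neg (by omega : ¬ y = 2),
      if_neg (by omega : ¬ y + 1 = m), if_pos (by omega : y + 2 = m)]
  · rw [if_neg (by omega : ¬ x = 0), if_neg (by omega : ¬ x = 1), if_pos (by omega : x = 2),
      if_neg (by omega : ¬ y = 0), if_neg (by omega : ¬ y = 1),
      if_neg (by omega : ¬ y = 2), if_neg (by omega : ¬ y + 1 = m),
      if_neg (by omega : ¬ y + 2 = m), if_pos (by omega : y + 3 = m)]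
  · rw [if_neg (by omega : ¬ x = 0), if_neg (by omega : ¬ x = 1), if_neg (by omega : ¬ x = 2),
      if_neg (by omega : ¬ x + 1 = m), if_neg (by omega : ¬ x + 2 = m),
      if_neg (by omega : ¬ x + 3 = m), if_neg (by omega : ¬ y = 0),
      if_neg (by omega : ¬ y = 1), if_neg (by omega : ¬ y = 2),
      if_neg (by omega : ¬ y + 1 = m), if_neg (by omega : ¬ y + 2 = m),
      if_neg (by omega : ¬ y + 3 = m)]
    have hr : y % 3 = 0 ∨ y % 3 = 1 ∨ y % 3 = 2 := by omega
    rcases hr with hr | hr | hr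
    · rw [if_pos (by omega : y % 3 = 0), if_neg (by omega : ¬ x % 3 = 0),
      if_pos (by omega : x % 3 = 1)]
    · rw [if_neg (by omega : ¬ y % 3 = 0), if_pos (by omega : y % 3 = 1),
      if_pos (by omega : x % 3 = 0)]
    · rw [if_neg (by omega : ¬ y % 3 = 0), if_neg (by omega : ¬ y % 3 = 1),
      if_neg (by omega : ¬ x % 3 = 0), if_neg (by omega : ¬ x % 3 = 1)]

lemma WM1_rev (m : ℕ) (hm : m % 3 = 1) (hmb : 7 ≤ m) (o : Bool) (a b : Fin 3) (x y : ℕ)
    (hxy : x + y + 1 = m) : WM1 m (!o) b a x = WM1 m o a b y := by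
  have hc : y = 0 ∨ y = 1 ∨ x = 0 ∨ x = 1 ∨ (2 ≤ x ∧ 2 ≤ y) := by omega
  unfold WM1
  rw [B0_not, B1_not]
  rcases hc with h | h | h | h | ⟨h, h'⟩
  · rw [if_neg (by omega : ¬ x = 0), if_neg (by omega : ¬ x = 1),
      if_pos (by omega : x + 1 = m), if_pos (by omega : y = 0)]
  · rw [if_neg (by omega : ¬ x = 0), if_neg (by omega : ¬ x = 1),
      if_neg (by omega : ¬ x + 1 = m), if_pos (by omega : x + 2 = m),
      if_neg (by omega : ¬ y = 0), if_pos (by omega : y = 1)]
  · rw [if_pos (by omega : x = 0), if_neg (by omega : ¬ y = 0), if_neg (by omega : ¬ y = 1),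
      if_pos (by omega : y + 1 = m)]
  · rw [if_neg (by omega : ¬ x = 0), if_pos (by omega : x = 1), if_neg (by omega : ¬ y = 0),
      if_neg (by omega : ¬ y = 1), if_neg (by omega : ¬ y + 1 = m),
      if_pos (by omega : y + 2 = m)]
  · rw [if_neg (by omega : ¬ x = 0), if_neg (by omega : ¬ x = 1),
      if_neg (by omega : ¬ x + 1 = m), if_neg (by omega : ¬ x + 2 = m),
      if_neg (by omega : ¬ y = 0), if_neg (by omega : ¬ y = 1),
      if_neg (by omega : ¬ y + 1 = m), if_neg (by omega : ¬ y + 2 = m)]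
    have hr : y % 3 = 0 ∨ y % 3 = 1 ∨ y % 3 = 2 := by omega
    cases o
    · simp only [Bool.not_false, if_true, Bool.false_eq_true, if_false]
      rcases hr with hr | hr | hr
      · by_cases hj : 2 * y + 3 * (m % 2) < m
        · rw [if_pos hj, if_neg (by omega : ¬ 2 * x < m + 3 * (m % 2)),
      if_pos (by omega : y % 3 = 0), if_pos (by omega : x % 3 = 0)]
        · rw [if_neg hj, if_pos (by omega : 2 * x < m + 3 * (m % 2)), if_pos (by omega : y % 3 = 0),
      if_pos (by omega : x % 3 = 0)]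
      · by_cases hj : 2 * y + 3 * (m % 2) < m
        · rw [if_pos hj, if_neg (by omega : ¬ 2 * x < m + 3 * (m % 2)),
      if_neg (by omega : ¬ y % 3 = 0), if_pos (by omega : y % 3 = 1),
      if_neg (by omega : ¬ x % 3 = 0), if_neg (by omega : ¬ x % 3 = 1)]
        · rw [if_neg hj, if_pos (by omega : 2 * x < m + 3 * (m % 2)),
      if_neg (by omega : ¬ y % 3 = 0), if_pos (by omega : y % 3 = 1),
      if_neg (by omega : ¬ x % 3 = 0), if_neg (by omega : ¬ x % 3 = 1)]
      · by_cases hj : 2 * y + 3 * (m % 2) < m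
        · rw [if_pos hj, if_neg (by omega : ¬ 2 * x < m + 3 * (m % 2)),
      if_neg (by omega : ¬ y % 3 = 0), if_neg (by omega : ¬ y % 3 = 1),
      if_neg (by omega : ¬ x % 3 = 0), if_pos (by omega : x % 3 = 1)]
        · rw [if_neg hj, if_pos (by omega : 2 * x < m + 3 * (m % 2)),
      if_neg (by omega : ¬ y % 3 = 0), if_neg (by omega : ¬ y % 3 = 1),
      if_neg (by omega : ¬ x % 3 = 0), if_pos (by omega : x % 3 = 1)]
    · simp only [Bool.not_true, if_true, Bool.false_eq_true, if_false]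
      rcases hr with hr | hr | hr
      · by_cases hj : 2 * y < m + 3 * (m % 2)
        · rw [if_pos hj, if_neg (by omega : ¬ 2 * x + 3 * (m % 2) < m),
      if_pos (by omega : y % 3 = 0), if_pos (by omega : x % 3 = 0)]
        · rw [if_neg hj, if_pos (by omega : 2 * x + 3 * (m % 2) < m), if_pos (by omega : y % 3 = 0),
      if_pos (by omega : x % 3 = 0)]
      · by_cases hj : 2 * y < m + 3 * (m % 2)
        · rw [if_pos hj, if_neg (by omega : ¬ 2 * x + 3 * (m % 2) < m),
      if_neg (by omega : ¬ y % 3 = 0), if_pos (by omega : y % 3 = 1),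
      if_neg (by omega : ¬ x % 3 = 0), if_neg (by omega : ¬ x % 3 = 1)]
        · rw [if_neg hj, if_pos (by omega : 2 * x + 3 * (m % 2) < m),
      if_neg (by omega : ¬ y % 3 = 0), if_pos (by omega : y % 3 = 1),
      if_neg (by omega : ¬ x % 3 = 0), if_neg (by omega : ¬ x % 3 = 1)]
      · by_cases hj : 2 * y < m + 3 * (m % 2)
        · rw [if_pos hj, if_neg (by omega : ¬ 2 * x + 3 * (m % 2) < m),
      if_neg (by omega : ¬ y % 3 = 0), if_neg (by omega : ¬ y % 3 = 1),
      if_neg (by omega : ¬ x % 3 = 0), if_pos (by omega : x % 3 = 1)]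
        · rw [if_neg hj, if_pos (by omega : 2 * x + 3 * (m % 2) < m),
      if_neg (by omega : ¬ y % 3 = 0), if_neg (by omega : ¬ y % 3 = 1),
      if_neg (by omega : ¬ x % 3 = 0), if_pos (by omega : x % 3 = 1)]

lemma WM2_rev (m : ℕ) (hm : m % 3 = 2) (hmb : 8 ≤ m) (o : Bool) (a b : Fin 3) (x y : ℕ)
    (hxy : x + y + 1 = m) : WM2 m (!o) b a x = WM2 m o a b y := by
  have hc : y = 0 ∨ y = 1 ∨ y = 2 ∨ x = 0 ∨ x = 1 ∨ x = 2 ∨ (3 ≤ x ∧ 3 ≤ y) := by omega
  unfold WM2
  rw [B0_not, B1_not]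
  rcases hc with h | h | h | h | h | h | ⟨h, h'⟩
  · rw [if_neg (by omega : ¬ x = 0), if_neg (by omega : ¬ x = 1), if_neg (by omega : ¬ x = 2),
      if_pos (by omega : x + 1 = m), if_pos (by omega : y = 0)]
  · rw [if_neg (by omega : ¬ x = 0), if_neg (by omega : ¬ x = 1), if_neg (by omega : ¬ x = 2),
      if_neg (by omega : ¬ x + 1 = m), if_pos (by omega : x + 2 = m),
      if_neg (by omega : ¬ y = 0), if_pos (by omega : y = 1)]
  · rw [if_neg (by omega : ¬ x = 0), if_neg (by omega : ¬ x = 1), if_neg (by omega : ¬ x = 2),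
      if_neg (by omega : ¬ x + 1 = m), if_neg (by omega : ¬ x + 2 = m),
      if_pos (by omega : x + 3 = m), if_neg (by omega : ¬ y = 0),
      if_neg (by omega : ¬ y = 1), if_pos (by omega : y = 2)]
  · rw [if_pos (by omega : x = 0), if_neg (by omega : ¬ y = 0), if_neg (by omega : ¬ y = 1),
      if_neg (by omega : ¬ y = 2), if_pos (by omega : y + 1 = m)]
  · rw [if_neg (by omega : ¬ x = 0), if_pos (by omega : x = 1), if_neg (by omega : ¬ y = 0),
      if_neg (by omega : ¬ y = 1), if_neg (by omega : ¬ y = 2),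
      if_neg (by omega : ¬ y + 1 = m), if_pos (by omega : y + 2 = m)]
  · rw [if_neg (by omega : ¬ x = 0), if_neg (by omega : ¬ x = 1), if_pos (by omega : x = 2),
      if_neg (by omega : ¬ y = 0), if_neg (by omega : ¬ y = 1),
      if_neg (by omega : ¬ y = 2), if_neg (by omega : ¬ y + 1 = m),
      if_neg (by omega : ¬ y + 2 = m), if_pos (by omega : y + 3 = m)]
  · rw [if_neg (by omega : ¬ x = 0), if_neg (by omega : ¬ x = 1), if_neg (by omega : ¬ x = 2),
      if_neg (by omega : ¬ x + 1 = m), if_neg (by omega : ¬ x + 2 = m),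
      if_neg (by omega : ¬ x + 3 = m), if_neg (by omega : ¬ y = 0),
      if_neg (by omega : ¬ y = 1), if_neg (by omega : ¬ y = 2),
      if_neg (by omega : ¬ y + 1 = m), if_neg (by omega : ¬ y + 2 = m),
      if_neg (by omega : ¬ y + 3 = m)]
    have hr : y % 3 = 0 ∨ y % 3 = 1 ∨ y % 3 = 2 := by omega
    rcases lt_trichotomy (2 * y + 1) m with hj | hj | hj
    · rw [if_pos hj, if_neg (by omega : ¬ 2 * x + 1 < m), if_neg (by omega : ¬ 2 * x + 1 = m)]
      rcases hr with hr | hr | hr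
      · rw [if_pos (by omega : y % 3 = 0), if_neg (by omega : ¬ x % 3 = 0),
      if_pos (by omega : x % 3 = 1)]
      · rw [if_neg (by omega : ¬ y % 3 = 0), if_pos (by omega : y % 3 = 1),
      if_pos (by omega : x % 3 = 0)]
      · rw [if_neg (by omega : ¬ y % 3 = 0), if_neg (by omega : ¬ y % 3 = 1),
      if_neg (by omega : ¬ x % 3 = 0), if_neg (by omega : ¬ x % 3 = 1)]
    · rw [if_neg (by omega : ¬ 2 * y + 1 < m), if_pos hj, if_neg (by omega : ¬ 2 * x + 1 < m),
      if_pos (by omega : 2 * x + 1 = m)]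
    · rw [if_neg (by omega : ¬ 2 * y + 1 < m), if_neg (by omega : ¬ 2 * y + 1 = m),
      if_pos (by omega : 2 * x + 1 < m)]
      rcases hr with hr | hr | hr
      · rw [if_pos (by omega : y % 3 = 0), if_neg (by omega : ¬ x % 3 = 0),
      if_pos (by omega : x % 3 = 1)]
      · rw [if_neg (by omega : ¬ y % 3 = 0), if_pos (by omega : y % 3 = 1),
      if_pos (by omega : x % 3 = 0)]
      · rw [if_neg (by omega : ¬ y % 3 = 0), if_neg (by omega : ¬ y % 3 = 1),
      if_neg (by omega : ¬ x % 3 = 0), if_neg (by omega : ¬ x % 3 = 1)]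

/-- an orientation of the edges -/
lemma exists_orient [Finite D] (G : Triangulation D) :
    ∃ o : D → Bool, ∀ d, o (G.rev d) = !o d := by
  obtain ⟨f, hf⟩ := exists_injective_nat D
  refine ⟨fun d => decide (f d < f (G.rev d)), fun d => ?_⟩
  have h1 : f (G.rev d) ≠ f d := fun h => G.rev_ne d (hf h)
  simp only [G.rev_rev]
  rcases lt_or_gt_of_ne h1 with h | h
  · simp [h, h.le]
  · simp [h, h.le]

lemma exists_spokes [Finite D] (G : Triangulation D) (hG : G.Loopless) (S : D → Prop)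
    (hS : ∀ x, ∃ y, G.rotPerm.SameCycle x y ∧ ¬ S y) :
    ∃ c : D → Fin 3, (∀ d, c (G.rot d) ≠ c d) ∧ ∀ d, S d → c d ≠ 0 := by
  classical
  have h1 : ∀ x, ∃ col : D → Fin 3, ∀ z, G.rotPerm.SameCycle x z →
      (S z → col z ≠ 0) ∧ col (G.rot z) ≠ col z := by
    intro x
    obtain ⟨y, hxy, hy⟩ := hS x
    obtain ⟨col, hcol⟩ := cycle_col G.rotPerm y (fun z => if z = y then 1 else 0)
      (by simp [rot_ne G hG y])
    refine ⟨col, fun z hz => ?_⟩
    obtain ⟨h2, h3⟩ := hcol z (hxy.symm.trans hz)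
    refine ⟨fun hz' => ?_, h3⟩
    have : z ≠ y := by rintro rfl; exact hy hz'
    simpa [this] using h2
  choose col hcol using h1
  let s := Equiv.Perm.SameCycle.setoid G.rotPerm
  let rep : D → D := fun x => Quotient.out (Quotient.mk s x)
  have hrep : ∀ x, G.rotPerm.SameCycle (rep x) x := fun x => Quotient.mk_out (s := s) x
  have hrep' : ∀ x, rep (G.rot x) = rep x := by
    intro x
    have : Quotient.mk s (G.rot x) = Quotient.mk s x := by
      apply Quotient.sound
      exact (Equiv.Perm.sameCycle_apply_left (f := G.rotPerm) (x := x) (y := x)).2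
        (Equiv.Perm.SameCycle.refl _ _)
    simp only [rep, this]
  refine ⟨fun x => col (rep x) x, fun d => ?_, fun d hd => ?_⟩
  · simp only [hrep']
    exact (hcol (rep d) d (hrep d)).2
  · exact (hcol (rep d) d (hrep d)).1 hd

theorem main_one [Finite D] (G : Triangulation D) (hG : G.Loopless) (m : ℕ)
    (hm : m % 3 = 1) (hm7 : 7 ≤ m) : (G.subdivide m).DualColourable := by
  classical
  obtain ⟨M, hM, hM1⟩ := petersen G hG
  obtain ⟨o, ho⟩ := exists_orient G
  have hMrot : ∀ x, M x → ¬ M (G.rot x) := by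
    intro x hx h
    rw [Triangulation.rot, hM] at h
    rcases hM1 x with h1 | h1 | h1
    · exact h1.2.2 h
    · exact h1.1 hx
    · exact h1.1 hx
  obtain ⟨c, hc, hc0⟩ := exists_spokes G hG M (by
    intro x
    by_cases hx : M x
    · exact ⟨G.rot x, Equiv.Perm.sameCycle_apply_right.2 (Equiv.Perm.SameCycle.refl _ _),
        hMrot x hx⟩
    · exact ⟨x, Equiv.Perm.SameCycle.refl _ _, hx⟩)
  refine assemble G m M hM1 (fun d => if M d then WM1 m (o d) (c d) (c (G.rev d))
    else WN1 m (o d) (c d) (c (G.rev d))) ?_ ?_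
  · intro d x y hxy
    simp only [hM, ho, G.rev_rev]
    by_cases hd : M d
    · simp only [hd, if_true]
      exact WM1_rev m hm hm7 _ _ _ x y hxy
    · simp only [hd, if_false]
      exact WN1_rev m hm hm7 _ _ _ x y hxy
  · intro e he
    have h1 : ¬ M (G.nxt e) := by
      rcases hM1 e with h1 | h1 | h1
      · exact h1.2.1
      · exact absurd he h1.1
      · exact absurd he h1.1
    have h2 : ¬ M (G.nxt (G.nxt e)) := by
      rcases hM1 e with h1 | h1 | h1
      · exact h1.2.2
      · exact absurd he h1.1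
      · exact absurd he h1.1
    simp only [he, h1, h2, if_true, if_false]
    have e1 : G.rot (G.nxt (G.nxt e)) = G.rev (G.nxt e) := by simp [Triangulation.rot, G.nxt_three]
    have e2 : G.rot (G.nxt e) = G.rev e := by simp [Triangulation.rot, G.nxt_three]
    exact One.face ⟨m, o e, o (G.nxt e), o (G.nxt (G.nxt e)), c e, c (G.rev e), c (G.nxt e),
      c (G.rev (G.nxt e)), c (G.nxt (G.nxt e)), c (G.rev (G.nxt (G.nxt e)))⟩ hm hm7
      (hc0 _ ((hM e).2 he)) (hc0 _ he)
      (by rw [← e1]; exact hc _) (by rw [← e2]; exact hc _) (hc e)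

theorem main_two [Finite D] (G : Triangulation D) (hG : G.Loopless) (m : ℕ)
    (hm : m % 3 = 2) (hm8 : 8 ≤ m) : (G.subdivide m).DualColourable := by
  classical
  obtain ⟨M, hM, hM1⟩ := petersen G hG
  obtain ⟨o, ho⟩ := exists_orient G
  obtain ⟨c, hc, hc0⟩ := exists_spokes G hG
    (fun d => ¬ M d ∧ ∃ y, G.rotPerm.SameCycle d y ∧ M y) (by
    intro x
    by_cases hx : ∃ y, G.rotPerm.SameCycle x y ∧ M y
    · obtain ⟨y, hy, hy'⟩ := hx
      exact ⟨y, hy, fun h => h.1 hy'⟩
    · exact ⟨x, Equiv.Perm.SameCycle.refl _ _, fun h => hx h.2⟩)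
  refine assemble G m M hM1 (fun d => if M d then WM2 m (o d) (c d) (c (G.rev d))
    else WN2 m (o d) (c d) (c (G.rev d))) ?_ ?_
  · intro d x y hxy
    simp only [hM, ho, G.rev_rev]
    by_cases hd : M d
    · simp only [hd, if_true]
      exact WM2_rev m hm hm8 _ _ _ x y hxy
    · simp only [hd, if_false]
      exact WN2_rev m hm hm8 _ _ _ x y hxy
  · intro e he
    have h1 : ¬ M (G.nxt e) := by
      rcases hM1 e with h1 | h1 | h1
      · exact h1.2.1
      · exact absurd he h1.1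
      · exact absurd he h1.1
    have h2 : ¬ M (G.nxt (G.nxt e)) := by
      rcases hM1 e with h1 | h1 | h1
      · exact h1.2.2
      · exact absurd he h1.1
      · exact absurd he h1.1
    simp only [he, h1, h2, if_true, if_false]
    have e1 : G.rot (G.nxt (G.nxt e)) = G.rev (G.nxt e) := by simp [Triangulation.rot, G.nxt_three]
    have e2 : G.rot (G.nxt e) = G.rev e := by simp [Triangulation.rot, G.nxt_three]
    have s1 : G.rotPerm.SameCycle (G.nxt e) (G.rev e) := by
      rw [← e2]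
      exact Equiv.Perm.sameCycle_apply_right.2 (Equiv.Perm.SameCycle.refl _ _)
    have s2 : G.rotPerm.SameCycle (G.rev (G.nxt (G.nxt e))) e :=
      (Equiv.Perm.sameCycle_apply_left (f := G.rotPerm) (x := e) (y := e)).2
        (Equiv.Perm.SameCycle.refl _ _)
    exact Two.face ⟨m, o e, o (G.nxt e), o (G.nxt (G.nxt e)), c e, c (G.rev e), c (G.nxt e),
      c (G.rev (G.nxt e)), c (G.nxt (G.nxt e)), c (G.rev (G.nxt (G.nxt e)))⟩ hm hm8
      (hc0 _ ⟨by rw [hM]; exact h2, e, s2, he⟩) (hc0 _ ⟨h1, G.rev e, s1, (hM e).2 he⟩)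
      (by rw [← e1]; exact hc _) (by rw [← e2]; exact hc _) (hc e)

theorem main_six [Finite D] (G : Triangulation D) (hG : G.Loopless) (m : ℕ)
    (hm6 : 6 ≤ m) (h3 : m % 3 ≠ 0) : (G.subdivide m).DualColourable := by
  have hc : m % 3 = 1 ∨ m % 3 = 2 := by omega
  rcases hc with h | h
  · exact main_one G hG m h (by omega)
  · exact main_two G hG m h (by omega)

end Pool.Agent.H10.GS
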